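import Mathlib

/-!
Definitions used in the statement about shifted `(n+1, n)`-setups.
-/

set_option autoImplicit false

namespace Pool.Agent.W_MP_ded0ac_co

open Complex

/-- The `j`-th vertex of the `i`-th polygon of the shifted `(n+1, n)`-setup with chosen vertices
`A_i = A exp(2πi·i/(n+1))`: it is the vertex `A_i exp(2πi·j/n)` of the regular `n`-gon centred at
the origin with vertex `A_i`, translated by `ε A_i`. Indices are integers (periodic modulo `n+1`
and `n`). -/
noncomputable def vert (n : ℕ) (A : ℂ) (ε : ℝ) (i j : ℤ) : ℂ :=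
  A * exp (2 * Real.pi * I * i / (n + 1)) * exp (2 * Real.pi * I * j / n) +
    ε * (A * exp (2 * Real.pi * I * i / (n + 1)))

/-- The `i`-th polygon of the shifted setup. -/
noncomputable def poly (n : ℕ) (A : ℂ) (ε : ℝ) (i : ℤ) : Set ℂ :=
  convexHull ℝ (Set.range (vert n A ε i))

/-- The union of the polygons of the shifted setup. -/
noncomputable def setupUnion (n : ℕ) (A : ℂ) (ε : ℝ) : Set ℂ := ⋃ i : ℤ, poly n A ε i

/-- The boundary of the union has the same pattern as for the basic setup (`ε = 0`): it is the
closed polygonal chain that passes through all vertices of all polygons, in the cyclic order of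
the regular `n(n+1)`-gon (the vertex following `vert i j` is `vert (i-1) (j+1)`), and between two
consecutive vertices turns at the crossing point `Q i j` of the side
`[vert i j, vert i (j+1)]` of the `i`-th polygon with the side
`[vert (i-1) (j+1), vert (i-1) j]` of the `(i-1)`-st polygon. -/
def SamePattern (n : ℕ) (A : ℂ) (ε : ℝ) : Prop :=
  ∃ Q : ℤ → ℤ → ℂ,
    (∀ i j : ℤ, Q i j ∈ openSegment ℝ (vert n A ε i j) (vert n A ε i (j + 1)) ∧
      Q i j ∈ openSegment ℝ (vert n A ε (i - 1) (j + 1)) (vert n A ε (i - 1) j)) ∧
    frontier (setupUnion n A ε) = ⋃ (i : ℤ) (j : ℤ),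
      (segment ℝ (vert n A ε i j) (Q i j) ∪ segment ℝ (Q i j) (vert n A ε (i - 1) (j + 1)))

end Pool.Agent.W_MP_ded0ac_co
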