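import Mathlib

/-!
Trigonometric identities for the normalised (circumradius one) shifted `(n+1, n)`-setup.
-/

set_option autoImplicit false

namespace Pool.Agent.W_MP_ded0ac_co

open Complex

/-- the unit complex number with argument `x` -/
noncomputable def e (x : ℝ) : ℂ := Complex.exp (x * Complex.I)

lemma e_re (x : ℝ) : (e x).re = Real.cos x := Complex.exp_ofReal_mul_I_re x
lemma e_im (x : ℝ) : (e x).im = Real.sin x := Complex.exp_ofReal_mul_I_im x
lemma e_zero : e 0 = 1 := by simp [e]
lemma e_add (x y : ℝ) : e (x + y) = e x * e y := by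
  simp [e, add_mul, Complex.exp_add]
lemma e_norm (x : ℝ) : ‖e x‖ = 1 := Complex.norm_exp_ofReal_mul_I x
lemma e_ne_zero (x : ℝ) : e x ≠ 0 := Complex.exp_ne_zero _
lemma e_neg_mul (x : ℝ) : e (-x) * e x = 1 := by rw [← e_add]; simp [e_zero]
lemma e_mul_neg (x : ℝ) : e x * e (-x) = 1 := by rw [← e_add]; simp [e_zero]
lemma e_two_pi (m : ℤ) : e (2 * Real.pi * m) = 1 := by
  unfold e
  rw [Complex.exp_eq_one_iff]
  exact ⟨m, by push_cast; ring⟩
lemma e_add_two_pi (x : ℝ) (m : ℤ) : e (x + 2 * Real.pi * m) = e x := by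
  rw [e_add, e_two_pi, mul_one]
lemma e_eq (x y : ℝ) (m : ℤ) (h : x = y + 2 * Real.pi * m) : e x = e y := by
  rw [h, e_add_two_pi]

section params

variable (n : ℕ)

/-- `π / n` -/
noncomputable def al : ℝ := Real.pi / n
/-- `π / (n + 1)` -/
noncomputable def be : ℝ := Real.pi / (n + 1)
/-- `π / (n (n + 1))` -/
noncomputable def de : ℝ := Real.pi / (n * (n + 1))

variable {n}

lemma al_eq (hn : 3 ≤ n) : al n = be n + de n := by
  have h : (n : ℝ) ≠ 0 := by positivity
  have h' : (n : ℝ) + 1 ≠ 0 := by positivity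
  unfold al be de
  field_simp

lemma n_al (hn : 3 ≤ n) : n * al n = Real.pi := by
  have h : (n : ℝ) ≠ 0 := by positivity
  unfold al
  field_simp

lemma k_be : ((n : ℝ) + 1) * be n = Real.pi := by
  have h' : (n : ℝ) + 1 ≠ 0 := by positivity
  unfold be
  field_simp

lemma n_de (hn : 3 ≤ n) : n * de n = be n := by
  have h : (n : ℝ) ≠ 0 := by positivity
  have h' : (n : ℝ) + 1 ≠ 0 := by positivity
  unfold be de
  field_simp

lemma k_de (hn : 3 ≤ n) : ((n : ℝ) + 1) * de n = al n := by
  have h : (n : ℝ) ≠ 0 := by positivity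
  have h' : (n : ℝ) + 1 ≠ 0 := by positivity
  unfold al de
  field_simp

lemma de_pos (hn : 3 ≤ n) : 0 < de n := by
  have h : (0 : ℝ) < n := by positivity
  unfold de
  positivity

lemma be_pos : 0 < be n := by
  unfold be
  positivity

lemma al_pos (hn : 3 ≤ n) : 0 < al n := by
  have h : (0 : ℝ) < n := by positivity
  unfold al
  positivity

lemma al_le (hn : 3 ≤ n) : al n ≤ Real.pi / 3 := by
  have h : (3 : ℝ) ≤ n := by exact_mod_cast hn
  unfold al
  exact div_le_div_of_nonneg_left Real.pi_pos.le (by norm_num) h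

lemma be_le (hn : 3 ≤ n) : be n ≤ Real.pi / 4 := by
  have h : (4 : ℝ) ≤ n + 1 := by
    have : (3 : ℝ) ≤ n := by exact_mod_cast hn
    linarith
  unfold be
  exact div_le_div_of_nonneg_left Real.pi_pos.le (by norm_num) h

lemma de_le (hn : 3 ≤ n) : de n ≤ Real.pi / 12 := by
  have h : (3 : ℝ) ≤ n := by exact_mod_cast hn
  unfold de
  apply div_le_div_of_nonneg_left Real.pi_pos.le (by norm_num)
  nlinarith

lemma cos_al_pos (hn : 3 ≤ n) : 0 < Real.cos (al n) := by
  apply Real.cos_pos_of_mem_Ioo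
  constructor
  · linarith [al_pos hn, Real.pi_pos]
  · linarith [al_le hn, Real.pi_pos]

lemma cos_be_pos (hn : 3 ≤ n) : 0 < Real.cos (be n) := by
  apply Real.cos_pos_of_mem_Ioo
  constructor
  · linarith [be_pos (n := n), Real.pi_pos]
  · linarith [be_le hn, Real.pi_pos]

lemma sin_al_pos (hn : 3 ≤ n) : 0 < Real.sin (al n) := by
  apply Real.sin_pos_of_pos_of_lt_pi (al_pos hn)
  linarith [al_le hn, Real.pi_pos]

lemma sin_be_pos (hn : 3 ≤ n) : 0 < Real.sin (be n) := by
  apply Real.sin_pos_of_pos_of_lt_pi be_pos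
  linarith [be_le hn, Real.pi_pos]

lemma sin_de_pos (hn : 3 ≤ n) : 0 < Real.sin (de n) := by
  apply Real.sin_pos_of_pos_of_lt_pi (de_pos hn)
  linarith [de_le hn, Real.pi_pos]

lemma sin_de_lt (hn : 3 ≤ n) : Real.sin (de n) < Real.cos (al n) * Real.cos (be n) := by
  have h1 : Real.sin (de n) ≤ Real.pi / 12 := (Real.sin_le (de_pos hn).le).trans (de_le hn)
  have h2 : (1 : ℝ) / 2 ≤ Real.cos (al n) := by
    rw [← Real.cos_pi_div_three]
    apply Real.cos_le_cos_of_nonneg_of_le_pi (al_pos hn).le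
    · linarith [Real.pi_pos]
    · exact al_le hn
  have h3 : Real.sqrt 2 / 2 ≤ Real.cos (be n) := by
    rw [← Real.cos_pi_div_four]
    apply Real.cos_le_cos_of_nonneg_of_le_pi be_pos.le
    · linarith [Real.pi_pos]
    · exact be_le hn
  have h4 : (1.4 : ℝ) ≤ Real.sqrt 2 := by
    apply Real.le_sqrt_of_sq_le
    norm_num
  have h5 : Real.pi < 3.15 := Real.pi_lt_d2
  have h6 : (1 : ℝ) / 2 * (Real.sqrt 2 / 2) ≤ Real.cos (al n) * Real.cos (be n) :=
    mul_le_mul h2 h3 (by positivity) (cos_al_pos hn).le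
  nlinarith

end params

section points

variable (n : ℕ) (ε : ℝ)

/-- the tips -/
noncomputable def p (t : ℤ) : ℂ := e (2 * de n * t) + ε * e (-(2 * be n * t))
/-- support numbers of the sides -/
noncomputable def h (t : ℤ) : ℝ := Real.cos (al n) + ε * Real.cos (2 * al n * t + al n)
/-- the reflex vertices -/
noncomputable def q (t : ℤ) : ℂ := ((h n ε t / Real.cos (be n) : ℝ) : ℂ) * e (2 * de n * t + de n)
/-- length of `[p t, q t]` -/
noncomputable def mu (t : ℤ) : ℝ :=
  (Real.sin (de n) + ε * Real.sin (2 * al n * t + de n)) / Real.cos (be n)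
/-- length of `[q t, p (t+1)]` -/
noncomputable def nu (t : ℤ) : ℝ :=
  (Real.sin (de n) - ε * Real.sin (2 * al n * t + al n + be n)) / Real.cos (be n)
/-- direction of the outer normal of the side from `p t` to `p (t + n + 1)` -/
noncomputable def nrm (t : ℤ) : ℝ := 2 * de n * t + al n
/-- the tangential coordinate -/
noncomputable def w (t : ℤ) : ℝ := ε * Real.sin (2 * al n * t + al n)

variable {n ε}

lemma h_period (hn : 3 ≤ n) (t m : ℤ) : h n ε (t + n * m) = h n ε t := by
  unfold h
  congr 2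
  have h1 := n_al hn
  have : 2 * al n * ((t + n * m : ℤ) : ℝ) + al n = 2 * al n * t + al n + m * (2 * Real.pi) := by
    push_cast
    rw [← h1]; ring
  rw [this, Real.cos_add_int_mul_two_pi]

lemma mu_period (hn : 3 ≤ n) (t m : ℤ) : mu n ε (t + n * m) = mu n ε t := by
  unfold mu
  congr 3
  have h1 := n_al hn
  have : 2 * al n * ((t + n * m : ℤ) : ℝ) + de n = 2 * al n * t + de n + m * (2 * Real.pi) := by
    push_cast
    rw [← h1]; ring
  rw [this, Real.sin_add_int_mul_two_pi]

lemma nu_period (hn : 3 ≤ n) (t m : ℤ) : nu n ε (t + n * m) = nu n ε t := by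
  unfold nu
  congr 3
  have h1 := n_al hn
  have : 2 * al n * ((t + n * m : ℤ) : ℝ) + al n + be n =
      2 * al n * t + al n + be n + m * (2 * Real.pi) := by
    push_cast
    rw [← h1]; ring
  rw [this, Real.sin_add_int_mul_two_pi]

lemma p_period (hn : 3 ≤ n) (t m : ℤ) : p n ε (t + n * (n + 1) * m) = p n ε t := by
  unfold p
  have h1 := n_al hn
  have h2 := k_be (n := n)
  have h3 := k_de hn
  congr 1
  · apply e_eq _ _ m
    push_cast
    rw [← h1, ← h3]; ring
  · congr 1
    apply e_eq _ _ (-(n * m))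
    push_cast
    rw [← h2]; ring

lemma q_period (hn : 3 ≤ n) (t m : ℤ) : q n ε (t + n * (n + 1) * m) = q n ε t := by
  unfold q
  have h1 := n_al hn
  have h3 := k_de hn
  have : t + n * (n + 1) * m = t + n * ((n + 1) * m) := by ring
  rw [this, h_period hn]
  congr 1
  apply e_eq _ _ m
  push_cast
  rw [← h1, ← h3]; ring

/-- `p t` in the coordinates of its side -/
lemma p_coord (hn : 3 ≤ n) (t : ℤ) :
    p n ε t = e (nrm n t) * (h n ε t + (-(Real.sin (al n)) - w n ε t : ℝ) * I) := by
  have key : e (-(nrm n t)) * p n ε t = (h n ε t + (-(Real.sin (al n)) - w n ε t : ℝ) * I) := by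
    unfold p
    rw [mul_add, ← e_add, mul_left_comm, ← e_add]
    have a1 : -(nrm n t) + 2 * de n * t = -(al n) := by unfold nrm; ring
    have a2 : -(nrm n t) + -(2 * be n * t) = -(2 * al n * t + al n) := by
      unfold nrm; rw [al_eq hn]; ring
    rw [a1, a2]
    apply Complex.ext
    · simp only [Complex.add_re, Complex.mul_re, Complex.ofReal_re, Complex.ofReal_im,
        Complex.I_re, Complex.I_im, e_re, Real.cos_neg]
      unfold h
      ring
    · simp only [Complex.add_im, Complex.mul_im, Complex.ofReal_re, Complex.ofReal_im,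
        Complex.I_re, Complex.I_im, e_im, Real.sin_neg]
      unfold w
      ring
  rw [← key, ← mul_assoc, e_mul_neg, one_mul]

lemma p_next_coord (hn : 3 ≤ n) (t : ℤ) :
    p n ε (t + (n + 1)) = e (nrm n t) * (h n ε t + (Real.sin (al n) - w n ε t : ℝ) * I) := by
  have key : e (-(nrm n t)) * p n ε (t + (n + 1)) =
      (h n ε t + (Real.sin (al n) - w n ε t : ℝ) * I) := by
    unfold p
    rw [mul_add, ← e_add, mul_left_comm, ← e_add]
    have a1 : -(nrm n t) + 2 * de n * ((t + (n + 1) : ℤ) : ℝ) = al n := by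
      unfold nrm; push_cast; rw [← k_de hn]; ring
    have a2 : e (-(nrm n t) + -(2 * be n * ((t + (n + 1) : ℤ) : ℝ))) =
        e (-(2 * al n * t + al n)) := by
      apply e_eq _ _ (-1)
      have := k_be (n := n)
      unfold nrm; push_cast; rw [← this, al_eq hn]; ring
    rw [a1, a2]
    apply Complex.ext
    · simp only [Complex.add_re, Complex.mul_re, Complex.ofReal_re, Complex.ofReal_im,
        Complex.I_re, Complex.I_im, e_re, Real.cos_neg]
      unfold h
      ring
    · simp only [Complex.add_im, Complex.mul_im, Complex.ofReal_re, Complex.ofReal_im,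
        Complex.I_re, Complex.I_im, e_im, Real.sin_neg]
      unfold w
      ring
  rw [← key, ← mul_assoc, e_mul_neg, one_mul]

lemma q_coord (hn : 3 ≤ n) (t : ℤ) :
    q n ε t = e (nrm n t) * (h n ε t + (-(h n ε t * Real.tan (be n)) : ℝ) * I) := by
  have key : e (-(nrm n t)) * q n ε t =
      (h n ε t + (-(h n ε t * Real.tan (be n)) : ℝ) * I) := by
    unfold q
    rw [mul_left_comm, ← e_add]
    have a1 : -(nrm n t) + (2 * de n * t + de n) = -(be n) := by
      unfold nrm; rw [al_eq hn]; ring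
    rw [a1]
    have hc := (cos_be_pos hn).ne'
    apply Complex.ext
    · simp only [Complex.add_re, Complex.ofReal_re, Complex.mul_re,
        Complex.ofReal_im, Complex.I_re, Complex.I_im, e_re, Real.cos_neg]
      field_simp
      ring
    · simp only [Complex.add_im, Complex.ofReal_re, Complex.mul_im,
        Complex.ofReal_im, Complex.I_re, Complex.I_im, e_im, Real.sin_neg, Real.tan_eq_sin_div_cos]
      field_simp
      ring
  rw [← key, ← mul_assoc, e_mul_neg, one_mul]

/-- the other side through `q t` starts at `p (t + 1 - (n + 1)) = p (t - n)` -/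
lemma q_coord' (hn : 3 ≤ n) (t : ℤ) :
    q n ε (t + n) = e (nrm n t) * (h n ε t + (h n ε t * Real.tan (be n) : ℝ) * I) := by
  have key : e (-(nrm n t)) * q n ε (t + n) =
      (h n ε t + (h n ε t * Real.tan (be n) : ℝ) * I) := by
    unfold q
    have hh : h n ε (t + n) = h n ε t := by
      have := h_period (ε := ε) hn t 1
      rwa [mul_one] at this
    rw [hh, mul_left_comm, ← e_add]
    have a1 : -(nrm n t) + (2 * de n * ((t + n : ℤ) : ℝ) + de n) = be n := by
      unfold nrm; push_cast; rw [al_eq hn, ← n_de hn]; ring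
    rw [a1]
    have hc := (cos_be_pos hn).ne'
    apply Complex.ext
    · simp only [Complex.add_re, Complex.ofReal_re, Complex.mul_re,
        Complex.ofReal_im, Complex.I_re, Complex.I_im, e_re]
      field_simp
      ring
    · simp only [Complex.add_im, Complex.ofReal_re, Complex.mul_im,
        Complex.ofReal_im, Complex.I_re, Complex.I_im, e_im, Real.tan_eq_sin_div_cos]
      field_simp
      ring
  rw [← key, ← mul_assoc, e_mul_neg, one_mul]

/-- `mu` through the coordinates -/
lemma mu_eq (hn : 3 ≤ n) (t : ℤ) :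
    mu n ε t = -(h n ε t * Real.tan (be n)) - (-(Real.sin (al n)) - w n ε t) := by
  have hc := (cos_be_pos hn).ne'
  have h1 : de n = al n - be n := by rw [al_eq hn]; ring
  have h2 : 2 * al n * t + de n = (2 * al n * t + al n) - be n := by rw [h1]; ring
  unfold mu h w
  rw [h2, Real.sin_sub, h1, Real.sin_sub, Real.tan_eq_sin_div_cos]
  field_simp
  ring

lemma nu_eq (hn : 3 ≤ n) (t : ℤ) :
    nu n ε t = (Real.sin (al n) - w n ε t) - h n ε t * Real.tan (be n) := by
  have hc := (cos_be_pos hn).ne'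
  have h1 : de n = al n - be n := by rw [al_eq hn]; ring
  unfold nu h w
  rw [Real.sin_add (2 * al n * t + al n) (be n), h1, Real.sin_sub, Real.tan_eq_sin_div_cos]
  field_simp
  ring

lemma mu_add_nu (hn : 3 ≤ n) (t : ℤ) :
    mu n ε t + nu n ε t =
      2 * (Real.sin (de n) - ε * Real.cos (2 * al n * t + al n) * Real.sin (be n)) /
        Real.cos (be n) := by
  have hc := (cos_be_pos hn).ne'
  have h1 : de n = al n - be n := by rw [al_eq hn]; ring
  rw [mu_eq hn, nu_eq hn]
  unfold h
  rw [h1, Real.sin_sub, Real.tan_eq_sin_div_cos]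
  field_simp
  ring

/-! ### trigonometric sums over a full period -/

lemma sum_cos (hn : 3 ≤ n) :
    ∑ t ∈ Finset.range (n * (n + 1)), Real.cos (2 * al n * (t : ℤ) + al n) = 0 := by
  have hs := sin_al_pos hn
  have key : ∀ N : ℕ, 2 * Real.sin (al n) *
      ∑ t ∈ Finset.range N, Real.cos (2 * al n * (t : ℤ) + al n) = Real.sin (2 * al n * N) := by
    intro N
    induction N with
    | zero => simp
    | succ N ih =>
      rw [Finset.sum_range_succ, mul_add, ih]
      have a1 : 2 * al n * ((N + 1 : ℕ) : ℝ) = (2 * al n * N + al n) + al n := by push_cast; ring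
      have a2 : 2 * al n * (N : ℝ) = (2 * al n * N + al n) - al n := by ring
      rw [a1, Real.sin_add]
      nth_rewrite 1 [a2]
      rw [Real.sin_sub]
      push_cast
      ring
  have h0 := key (n * (n + 1))
  have h2 : Real.sin (2 * al n * ((n * (n + 1) : ℕ) : ℝ)) = 0 := by
    have : 2 * al n * ((n * (n + 1) : ℕ) : ℝ) = ((2 * (n + 1) : ℕ) : ℝ) * Real.pi := by
      push_cast
      rw [← n_al hn]; ring
    rw [this, Real.sin_nat_mul_pi]
  rw [h2] at h0
  rcases mul_eq_zero.mp h0 with h3 | h3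
  · linarith
  · exact h3

lemma sum_cos_sq (hn : 3 ≤ n) :
    ∑ t ∈ Finset.range (n * (n + 1)), Real.cos (2 * al n * (t : ℤ) + al n) ^ 2 =
      (n * (n + 1) : ℝ) / 2 := by
  have hs : 0 < Real.sin (2 * al n) := by
    apply Real.sin_pos_of_pos_of_lt_pi
    · linarith [al_pos hn]
    · linarith [al_le hn, Real.pi_pos]
  have key : ∀ N : ℕ, 2 * Real.sin (2 * al n) *
      ∑ t ∈ Finset.range N, Real.cos (2 * (2 * al n * (t : ℤ) + al n)) =
        Real.sin (4 * al n * N) := by
    intro N
    induction N with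
    | zero => simp
    | succ N ih =>
      rw [Finset.sum_range_succ, mul_add, ih]
      have a1 : 4 * al n * ((N + 1 : ℕ) : ℝ) = 2 * (2 * al n * N + al n) + 2 * al n := by
        push_cast; ring
      have a2 : 4 * al n * (N : ℝ) = 2 * (2 * al n * N + al n) - 2 * al n := by ring
      rw [a1, Real.sin_add]
      nth_rewrite 1 [a2]
      rw [Real.sin_sub]
      push_cast
      ring
  have h0 := key (n * (n + 1))
  have h2 : Real.sin (4 * al n * ((n * (n + 1) : ℕ) : ℝ)) = 0 := by
    have : 4 * al n * ((n * (n + 1) : ℕ) : ℝ) = ((4 * (n + 1) : ℕ) : ℝ) * Real.pi := by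
      push_cast
      rw [← n_al hn]; ring
    rw [this, Real.sin_nat_mul_pi]
  rw [h2] at h0
  have h3 : ∑ t ∈ Finset.range (n * (n + 1)), Real.cos (2 * (2 * al n * (t : ℤ) + al n)) = 0 := by
    rcases mul_eq_zero.mp h0 with h3 | h3
    · linarith
    · exact h3
  have h4 : ∀ t ∈ Finset.range (n * (n + 1)), Real.cos (2 * al n * (t : ℤ) + al n) ^ 2 =
      1 / 2 + (1 / 2) * Real.cos (2 * (2 * al n * (t : ℤ) + al n)) := by
    intro t _
    rw [Real.cos_two_mul]
    ring
  rw [Finset.sum_congr rfl h4, Finset.sum_add_distrib, ← Finset.mul_sum, h3]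
  simp
  ring

/-- total length -/
lemma sum_len (hn : 3 ≤ n) :
    ∑ t ∈ Finset.range (n * (n + 1)), (mu n ε (t : ℤ) + nu n ε (t : ℤ)) =
      2 * (n * (n + 1)) * Real.sin (de n) / Real.cos (be n) := by
  have h1 : ∀ t ∈ Finset.range (n * (n + 1)), (mu n ε (t : ℤ) + nu n ε (t : ℤ)) =
      2 * Real.sin (de n) / Real.cos (be n) -
        (2 * ε * Real.sin (be n) / Real.cos (be n)) * Real.cos (2 * al n * (t : ℤ) + al n) := by
    intro t _
    rw [mu_add_nu hn]
    ring
  rw [Finset.sum_congr rfl h1, Finset.sum_sub_distrib, ← Finset.mul_sum, sum_cos hn]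
  simp
  ring

/-- twice the total area -/
lemma sum_area (hn : 3 ≤ n) :
    ∑ t ∈ Finset.range (n * (n + 1)), h n ε (t : ℤ) * (mu n ε (t : ℤ) + nu n ε (t : ℤ)) =
      2 * (n * (n + 1)) * (Real.cos (al n) * Real.sin (de n) - ε ^ 2 / 2 * Real.sin (be n)) /
        Real.cos (be n) := by
  have h1 : ∀ t ∈ Finset.range (n * (n + 1)),
      h n ε (t : ℤ) * (mu n ε (t : ℤ) + nu n ε (t : ℤ)) =
      2 * Real.cos (al n) * Real.sin (de n) / Real.cos (be n) +
        (2 * ε * (Real.sin (de n) - Real.cos (al n) * Real.sin (be n)) / Real.cos (be n)) *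
          Real.cos (2 * al n * (t : ℤ) + al n) -
        (2 * ε ^ 2 * Real.sin (be n) / Real.cos (be n)) *
          Real.cos (2 * al n * (t : ℤ) + al n) ^ 2 := by
    intro t _
    rw [mu_add_nu hn]
    unfold h
    ring
  rw [Finset.sum_congr rfl h1, Finset.sum_sub_distrib, Finset.sum_add_distrib, ← Finset.mul_sum,
    ← Finset.mul_sum, sum_cos hn, sum_cos_sq hn]
  simp
  ring

end points

end Pool.Agent.W_MP_ded0ac_co
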