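import Mathlib
import Pool.Agent.W_MP_ded0ac_co.Trig

/-!
Geometry of the normalised shifted `(n+1, n)`-setup: polygons, half planes, covering by cones.
-/

set_option autoImplicit false

namespace Pool.Agent.W_MP_ded0ac_co

open Complex

/-- determinant of two plane vectors -/
def det (z v : ℂ) : ℝ := z.re * v.im - z.im * v.re

lemma cramer (a b z : ℂ) (hab : det a b ≠ 0) :
    z = ((det z b / det a b : ℝ) : ℂ) * a + ((det a z / det a b : ℝ) : ℂ) * b := by
  have h1 : a.re * b.im - a.im * b.re ≠ 0 := hab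
  apply Complex.ext
  · simp only [Complex.add_re, Complex.mul_re, Complex.ofReal_re, Complex.ofReal_im, zero_mul,
      sub_zero]
    unfold det
    rw [div_mul_eq_mul_div, div_mul_eq_mul_div, ← add_div, eq_div_iff h1]
    ring
  · simp only [Complex.add_im, Complex.mul_im, Complex.ofReal_re, Complex.ofReal_im, zero_mul,
      add_zero]
    unfold det
    rw [div_mul_eq_mul_div, div_mul_eq_mul_div, ← add_div, eq_div_iff h1]
    ring

lemma det_rot (x : ℝ) (z v : ℂ) : det (e x * z) (e x * v) = det z v := by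
  unfold det
  simp only [Complex.mul_re, Complex.mul_im, e_re, e_im]
  have := Real.sin_sq_add_cos_sq x
  linear_combination (z.re * v.im - z.im * v.re) * this

lemma det_coord (x a b c d : ℝ) :
    det (e x * (a + b * I)) (e x * (c + d * I)) = a * d - b * c := by
  rw [det_rot]
  simp [det]

lemma det_polar (a b x y : ℝ) : det ((a : ℂ) * e x) ((b : ℂ) * e y) = a * b * Real.sin (y - x) := by
  unfold det
  simp only [Complex.mul_re, Complex.mul_im, Complex.ofReal_re, Complex.ofReal_im, e_re, e_im,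
    Real.sin_sub]
  ring

/-- polar form with argument near a multiple of a given step -/
lemma exists_polar (s : ℝ) (hs : 0 < s) (z : ℂ) :
    ∃ (m : ℤ) (x : ℝ), 0 ≤ x ∧ x < s ∧ z = (‖z‖ : ℂ) * e (s * m + x) := by
  refine ⟨⌊z.arg / s⌋, z.arg - s * ⌊z.arg / s⌋, ?_, ?_, ?_⟩
  · have := Int.floor_le (z.arg / s)
    rw [le_div_iff₀ hs] at this
    linarith
  · have := Int.lt_floor_add_one (z.arg / s)
    rw [div_lt_iff₀ hs] at this
    linarith
  · have h1 : s * (⌊z.arg / s⌋ : ℝ) + (z.arg - s * ⌊z.arg / s⌋) = z.arg := by ring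
    rw [h1]
    exact (Complex.norm_mul_exp_arg_mul_I z).symm

section

variable {n : ℕ} {ε : ℝ}

/-- polygon containing the tip `p t` -/
def K (n : ℕ) (ε : ℝ) (t : ℤ) : Set ℂ :=
  convexHull ℝ (Set.range fun j : ℤ => p n ε (t + (n + 1) * j))

/-- union of all polygons -/
def U (n : ℕ) (ε : ℝ) : Set ℂ := ⋃ t : ℤ, K n ε t

lemma K_period (t m : ℤ) : K n ε (t + (n + 1) * m) = K n ε t := by
  unfold K
  congr 1
  ext z
  constructor
  · rintro ⟨j, rfl⟩
    exact ⟨m + j, by simp only; congr 1; ring⟩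
  · rintro ⟨j, rfl⟩
    exact ⟨j - m, by simp only; congr 1; ring⟩

lemma K_convex (t : ℤ) : Convex ℝ (K n ε t) := convex_convexHull ℝ _

lemma p_mem_K (t : ℤ) : p n ε t ∈ K n ε t :=
  subset_convexHull ℝ _ ⟨0, by simp⟩

lemma p_next_mem_K (t : ℤ) : p n ε (t + (n + 1)) ∈ K n ε t :=
  subset_convexHull ℝ _ ⟨1, by simp⟩

lemma cos_odd (hn : 3 ≤ n) (m : ℤ) : Real.cos ((2 * m - 1) * al n) ≤ Real.cos (al n) := by
  have h1 : Real.cos ((2 * m - 1) * al n) - Real.cos (al n) =
      -2 * (Real.sin (m * al n) * Real.sin ((m - 1) * al n)) := by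
    rw [Real.cos_sub_cos]
    have a1 : ((2 * (m : ℝ) - 1) * al n + al n) / 2 = m * al n := by ring
    have a2 : ((2 * (m : ℝ) - 1) * al n - al n) / 2 = (m - 1) * al n := by ring
    rw [a1, a2]; ring
  have h2 : 0 ≤ Real.sin (m * al n) * Real.sin ((m - 1) * al n) := by
    have hnz : (0 : ℤ) < n := by exact_mod_cast (by omega : 0 < n)
    obtain ⟨c, r, hr0, hrn, hm⟩ : ∃ (c r : ℤ), 0 ≤ r ∧ r < n ∧ m = r + 1 + n * c := by
      refine ⟨(m - 1) / n, (m - 1) % n, Int.emod_nonneg _ hnz.ne', Int.emod_lt_of_pos _ hnz, ?_⟩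
      have := Int.emod_add_mul_ediv (m - 1) n
      linarith
    have hal := al_pos hn
    have hr0' : (0 : ℝ) ≤ r := by exact_mod_cast hr0
    have hrn' : (r : ℝ) + 1 ≤ n := by exact_mod_cast hrn
    have a1 : (m : ℝ) * al n = (r + 1) * al n + c * Real.pi := by
      rw [hm, ← n_al hn]; push_cast; ring
    have a2 : ((m : ℝ) - 1) * al n = r * al n + c * Real.pi := by
      rw [hm, ← n_al hn]; push_cast; ring
    rw [a1, a2, Real.sin_add_int_mul_pi, Real.sin_add_int_mul_pi]
    have hsq : ((-1 : ℝ) ^ c) * ((-1 : ℝ) ^ c) = 1 := by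
      rw [← zpow_add₀ (by norm_num)]
      have : Even (c + c) := ⟨c, rfl⟩
      exact this.neg_one_zpow
    have s1 : 0 ≤ Real.sin ((r + 1) * al n) := by
      apply Real.sin_nonneg_of_nonneg_of_le_pi (by positivity)
      rw [← n_al hn]
      exact mul_le_mul_of_nonneg_right hrn' hal.le
    have s2 : 0 ≤ Real.sin (r * al n) := by
      apply Real.sin_nonneg_of_nonneg_of_le_pi (by positivity)
      rw [← n_al hn]
      apply mul_le_mul_of_nonneg_right _ hal.le
      linarith
    have : (-1 : ℝ) ^ c * Real.sin ((r + 1) * al n) * ((-1) ^ c * Real.sin (r * al n)) =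
        (((-1 : ℝ) ^ c) * ((-1 : ℝ) ^ c)) * (Real.sin ((r + 1) * al n) * Real.sin (r * al n)) := by
      ring
    rw [this, hsq, one_mul]
    positivity
  linarith

/-- the side with number `t + (n+1) j` bounds the polygon `K t` -/
lemma K_halfplane (hn : 3 ≤ n) (t j : ℤ) (z : ℂ) (hz : z ∈ K n ε t) :
    (e (-(nrm n (t + (n + 1) * j))) * z).re ≤ h n ε (t + (n + 1) * j) := by
  have hsub : K n ε t ⊆ {z : ℂ | (e (-(nrm n (t + (n + 1) * j))) * z).re ≤
      h n ε (t + (n + 1) * j)} := by
    apply convexHull_min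
    · rintro _ ⟨m, rfl⟩
      simp only [Set.mem_ofPred_eq]
      set s : ℤ := t + (n + 1) * j with hs
      obtain ⟨c, hc⟩ : ∃ c : ℤ, t + (n + 1) * m = s + (n + 1) * c := ⟨m - j, by rw [hs]; ring⟩
      rw [hc]
      unfold p
      rw [mul_add, ← e_add, mul_left_comm, ← e_add]
      have a1 : -(nrm n s) + 2 * de n * ((s + (n + 1) * c : ℤ) : ℝ) = (2 * c - 1) * al n := by
        unfold nrm; push_cast; rw [← k_de hn]; ring
      have a2 : e (-(nrm n s) + -(2 * be n * ((s + (n + 1) * c : ℤ) : ℝ))) =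
          e (-(2 * al n * s + al n)) := by
        apply e_eq _ _ (-c)
        have := k_be (n := n)
        unfold nrm; push_cast; rw [← this, al_eq hn]; ring
      rw [a1, a2]
      simp only [Complex.add_re, Complex.mul_re, Complex.ofReal_re, Complex.ofReal_im, e_re,
        Real.cos_neg, zero_mul, sub_zero]
      unfold h
      have := cos_odd hn c
      linarith
    · intro x hx y hy a b ha hb hab
      simp only [Set.mem_ofPred_eq] at hx hy ⊢
      have : (e (-(nrm n (t + (n + 1) * j))) * (a • x + b • y)).re =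
          a * (e (-(nrm n (t + (n + 1) * j))) * x).re +
            b * (e (-(nrm n (t + (n + 1) * j))) * y).re := by
        simp only [Complex.mul_re, Complex.add_re, Complex.add_im, Complex.real_smul,
          Complex.ofReal_re, Complex.ofReal_im, Complex.mul_im, zero_mul, sub_zero, add_zero]
        ring
      rw [this]
      have h1 := mul_le_mul_of_nonneg_left hx ha
      have h2 := mul_le_mul_of_nonneg_left hy hb
      have h3 : a * h n ε (t + (n + 1) * j) + b * h n ε (t + (n + 1) * j) =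
          h n ε (t + (n + 1) * j) := by rw [← add_mul, hab, one_mul]
      linarith
  exact hsub hz

lemma K_finite (hn : 3 ≤ n) (t : ℤ) :
    (Set.range fun j : ℤ => p n ε (t + (n + 1) * j)).Finite := by
  apply Set.Finite.subset (Set.Finite.image (fun j : ℤ => p n ε (t + (n + 1) * j))
    (Set.finite_Ico (0 : ℤ) n))
  rintro _ ⟨j, rfl⟩
  have hnz : (0 : ℤ) < n := by exact_mod_cast (by omega : 0 < n)
  refine ⟨j % n, ⟨Int.emod_nonneg _ hnz.ne', Int.emod_lt_of_pos _ hnz⟩, ?_⟩
  simp only
  have h1 := Int.emod_add_mul_ediv j n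
  have h2 : t + (n + 1) * j = (t + (n + 1) * (j % n)) + n * (n + 1) * (j / n) := by
    nth_rewrite 1 [← h1]; ring
  rw [h2, p_period hn]

lemma K_compact (hn : 3 ≤ n) (t : ℤ) : IsCompact (K n ε t) :=
  (K_finite hn t).isCompact_convexHull ℝ

lemma U_eq (hn : 3 ≤ n) : U n ε = ⋃ t ∈ Set.Ico (0 : ℤ) (n + 1), K n ε t := by
  unfold U
  apply Set.Subset.antisymm
  · intro z hz
    rw [Set.mem_iUnion] at hz
    obtain ⟨t, ht⟩ := hz
    have hnz : (0 : ℤ) < n + 1 := by positivity
    have h1 := Int.emod_add_mul_ediv t (n + 1)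
    rw [← h1, K_period] at ht
    rw [Set.mem_iUnion₂]
    exact ⟨t % (n + 1), ⟨Int.emod_nonneg _ hnz.ne', Int.emod_lt_of_pos _ hnz⟩, ht⟩
  · intro z hz
    rw [Set.mem_iUnion₂] at hz
    obtain ⟨t, _, ht⟩ := hz
    exact Set.mem_iUnion.mpr ⟨t, ht⟩

lemma U_compact (hn : 3 ≤ n) : IsCompact (U n ε) := by
  rw [U_eq hn]
  exact (Set.finite_Ico (0 : ℤ) (n + 1)).isCompact_biUnion (fun t _ => K_compact hn t)

lemma K_sub_U (t : ℤ) : K n ε t ⊆ U n ε := Set.subset_iUnion (K n ε) t

/-! ### the inscribed disc -/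

/-- the regular polygon inscribed in the unit circle -/
def G (n : ℕ) : Set ℂ := convexHull ℝ (Set.range fun j : ℤ => e (2 * al n * j))

lemma zero_mem_G (hn : 3 ≤ n) : (0 : ℂ) ∈ G n := by
  have hsum : ∑ j ∈ Finset.range n, e (2 * al n * (j : ℤ)) = 0 := by
    have key : ∀ N : ℕ, (e (2 * al n) - 1) * ∑ j ∈ Finset.range N, e (2 * al n * (j : ℤ)) =
        e (2 * al n * N) - 1 := by
      intro N
      induction N with
      | zero => simp [e_zero]
      | succ N ih =>
        rw [Finset.sum_range_succ, mul_add, ih]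
        have : 2 * al n * ((N + 1 : ℕ) : ℝ) = 2 * al n + 2 * al n * N := by push_cast; ring
        rw [this, e_add]
        push_cast
        ring
    have h1 := key n
    have h2 : e (2 * al n * n) = 1 := by
      have : 2 * al n * n = 2 * Real.pi * (1 : ℤ) := by rw [← n_al hn]; push_cast; ring
      rw [this, e_two_pi]
    rw [h2, sub_self] at h1
    rcases mul_eq_zero.mp h1 with h3 | h3
    · exfalso
      have h4 : (e (2 * al n)).im = (1 : ℂ).im := by rw [sub_eq_zero.mp h3]
      rw [e_im, Complex.one_im] at h4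
      have : 0 < Real.sin (2 * al n) := by
        apply Real.sin_pos_of_pos_of_lt_pi
        · linarith [al_pos hn]
        · linarith [al_le hn, Real.pi_pos]
      linarith
    · exact h3
  have hmem := Finset.centerMass_mem_convexHull (R := ℝ) (E := ℂ)
    (s := Set.range fun j : ℤ => e (2 * al n * j)) (Finset.range n) (w := fun _ => 1)
    (z := fun j : ℕ => e (2 * al n * (j : ℤ))) (fun _ _ => zero_le_one)
    (by simp; omega) (fun i _ => ⟨(i : ℤ), rfl⟩)
  unfold Finset.centerMass at hmem
  simp only [one_smul] at hmem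
  rw [hsum, smul_zero] at hmem
  exact hmem

lemma disc_sub_G (hn : 3 ≤ n) (z : ℂ) (hz : ‖z‖ ≤ Real.cos (al n)) : z ∈ G n := by
  have hal := al_pos hn
  have hsin := sin_al_pos hn
  have hcos := cos_al_pos hn
  obtain ⟨m, x, hx0, hx1, hzx⟩ := exists_polar (2 * al n) (by linarith) z
  have hs2 : 0 < Real.sin (2 * al n) := by
    apply Real.sin_pos_of_pos_of_lt_pi
    · linarith
    · linarith [al_le hn, Real.pi_pos]
  have hs3 : 0 ≤ Real.sin x := by
    apply Real.sin_nonneg_of_nonneg_of_le_pi hx0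
    linarith [al_le hn, Real.pi_pos]
  have hs4 : 0 ≤ Real.sin (2 * al n - x) := by
    apply Real.sin_nonneg_of_nonneg_of_le_pi (by linarith)
    linarith [al_le hn, Real.pi_pos]
  set a : ℝ := ‖z‖ * Real.sin (2 * al n - x) / Real.sin (2 * al n) with ha
  set b : ℝ := ‖z‖ * Real.sin x / Real.sin (2 * al n) with hb
  have ha0 : 0 ≤ a := by positivity
  have hb0 : 0 ≤ b := by positivity
  have hab : a + b ≤ 1 := by
    have h1 : a + b = ‖z‖ * Real.cos (al n - x) / Real.cos (al n) := by
      rw [ha, hb, Real.sin_two_mul, Real.sin_sub, Real.sin_two_mul, Real.cos_two_mul,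
        Real.cos_sub]
      have hsc := Real.sin_sq_add_cos_sq (al n)
      field_simp
      linear_combination (-2 * ‖z‖ * Real.sin x) * hsc
    rw [h1, div_le_one hcos]
    calc ‖z‖ * Real.cos (al n - x) ≤ ‖z‖ * 1 :=
          mul_le_mul_of_nonneg_left (Real.cos_le_one _) (norm_nonneg _)
      _ ≤ Real.cos (al n) := by rw [mul_one]; exact hz
  have hzeq : z = a • e (2 * al n * m) + b • e (2 * al n * ((m + 1 : ℤ) : ℝ)) := by
    have e1 : e (2 * al n * ((m + 1 : ℤ) : ℝ)) = e (2 * al n * m) * e (2 * al n) := by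
      rw [← e_add]; congr 1; push_cast; ring
    rw [e1, Complex.real_smul, Complex.real_smul]
    nth_rewrite 1 [hzx]
    rw [e_add]
    have h2 : (‖z‖ : ℂ) * e x = (a : ℂ) + (b : ℂ) * e (2 * al n) := by
      apply Complex.ext
      · simp only [Complex.add_re, Complex.mul_re, Complex.ofReal_re, Complex.ofReal_im, e_re,
          zero_mul, sub_zero]
        rw [ha, hb, Real.sin_sub]
        field_simp
        ring
      · simp only [Complex.add_im, Complex.mul_im, Complex.ofReal_re, Complex.ofReal_im, e_im,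
          zero_mul, zero_add, add_zero]
        rw [hb]
        field_simp
    linear_combination (e (2 * al n * m)) * h2
  have hG := convex_convexHull ℝ (Set.range fun j : ℤ => e (2 * al n * j))
  have m1 : e (2 * al n * m) ∈ G n := subset_convexHull ℝ _ ⟨m, rfl⟩
  have m2 : e (2 * al n * ((m + 1 : ℤ) : ℝ)) ∈ G n := subset_convexHull ℝ _ ⟨m + 1, rfl⟩
  have m0 := zero_mem_G hn
  -- combine
  rcases eq_or_lt_of_le (add_nonneg ha0 hb0) with hab0 | hab0
  · have ha' : a = 0 := by linarith
    have hb' : b = 0 := by linarith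
    rw [hzeq, ha', hb', zero_smul, zero_smul, add_zero]
    exact m0
  · have m3 : (a / (a + b)) • e (2 * al n * m) + (b / (a + b)) • e (2 * al n * ((m + 1 : ℤ) : ℝ))
        ∈ G n := hG m1 m2 (by positivity) (by positivity) (by field_simp)
    have m4 := hG m3 m0 hab0.le (sub_nonneg.mpr hab) (by ring)
    have : z = (a + b) • ((a / (a + b)) • e (2 * al n * m) +
        (b / (a + b)) • e (2 * al n * ((m + 1 : ℤ) : ℝ))) + (1 - (a + b)) • (0 : ℂ) := by
      rw [smul_zero, add_zero, smul_add, smul_smul, smul_smul, mul_div_cancel₀ _ hab0.ne',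
        mul_div_cancel₀ _ hab0.ne']
      exact hzeq
    rw [this]
    exact m4

/-- `K t` contains the disc of radius `cos (π / n)` around its centre. -/
lemma disc_sub_K (hn : 3 ≤ n) (t : ℤ) (z : ℂ)
    (hz : ‖z - ε * e (-(2 * be n * t))‖ ≤ Real.cos (al n)) : z ∈ K n ε t := by
  -- K t is the image of G under an affine map
  have hmap : ∀ v ∈ G n, e (2 * de n * t) * v + ε * e (-(2 * be n * t)) ∈ K n ε t := by
    have hconv : Convex ℝ {v : ℂ | e (2 * de n * t) * v + ε * e (-(2 * be n * t)) ∈ K n ε t} := by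
      intro x hx y hy a b ha hb hab
      simp only [Set.mem_ofPred_eq] at hx hy ⊢
      have := K_convex t hx hy ha hb hab
      have h2 : e (2 * de n * t) * (a • x + b • y) + ε * e (-(2 * be n * t)) =
          a • (e (2 * de n * t) * x + ε * e (-(2 * be n * t))) +
          b • (e (2 * de n * t) * y + ε * e (-(2 * be n * t))) := by
        simp only [Complex.real_smul]
        have hab' : (a : ℂ) + b = 1 := by exact_mod_cast hab
        linear_combination (-(ε * e (-(2 * be n * t)))) * hab'
      rw [h2]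
      exact this
    intro v hv
    have hsub : G n ⊆ {v : ℂ | e (2 * de n * t) * v + ε * e (-(2 * be n * t)) ∈ K n ε t} := by
      apply convexHull_min _ hconv
      rintro _ ⟨j, rfl⟩
      simp only [Set.mem_ofPred_eq]
      apply subset_convexHull
      refine ⟨j, ?_⟩
      simp only
      unfold p
      congr 1
      · rw [← e_add]
        congr 1
        push_cast
        rw [← k_de hn]; ring
      · congr 1
        apply e_eq _ _ (-j)
        have := k_be (n := n)
        push_cast
        rw [← this]; ring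
    exact hsub hv
  have hv : e (-(2 * de n * t)) * (z - ε * e (-(2 * be n * t))) ∈ G n := by
    apply disc_sub_G hn
    rw [norm_mul, e_norm, one_mul]
    exact hz
  have := hmap _ hv
  rw [← mul_assoc, e_mul_neg, one_mul, sub_add_cancel] at this
  exact this

lemma zero_mem_interior_K (hn : 3 ≤ n) (hε : |ε| < Real.cos (al n)) (t : ℤ) :
    (0 : ℂ) ∈ interior (K n ε t) := by
  rw [mem_interior]
  refine ⟨Metric.ball 0 (Real.cos (al n) - |ε|), ?_, Metric.isOpen_ball, ?_⟩
  · intro z hz
    rw [mem_ball_zero_iff] at hz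
    apply disc_sub_K hn
    calc ‖z - ε * e (-(2 * be n * t))‖ ≤ ‖z‖ + ‖(ε : ℂ) * e (-(2 * be n * t))‖ := norm_sub_le _ _
      _ = ‖z‖ + |ε| := by rw [norm_mul, e_norm, mul_one, Complex.norm_real, Real.norm_eq_abs]
      _ ≤ Real.cos (al n) := by linarith
  · simpa using hε

/-! ### star-shapedness -/

lemma outside (hn : 3 ≤ n) (hε : |ε| < Real.cos (al n)) (z : ℂ) (hz : z ∈ frontier (U n ε))
    (r : ℝ) (hr : 1 < r) : (r : ℂ) * z ∉ U n ε := by
  intro hmem
  unfold U at hmem
  rw [Set.mem_iUnion] at hmem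
  obtain ⟨t, ht⟩ := hmem
  have h1 := (K_convex (n := n) (ε := ε) t).combo_interior_closure_mem_interior
    (zero_mem_interior_K hn hε t) (subset_closure ht) (a := 1 - 1 / r) (b := 1 / r)
    (by rw [sub_pos, div_lt_one (by linarith)]; exact hr) (by positivity) (by ring)
  have h2 : (1 - 1 / r) • (0 : ℂ) + (1 / r) • ((r : ℂ) * z) = z := by
    rw [smul_zero, zero_add, Complex.real_smul]
    have : (r : ℂ) ≠ 0 := by
      have : r ≠ 0 := by linarith
      exact_mod_cast this
    push_cast
    field_simp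
  rw [h2] at h1
  have h3 : z ∈ interior (U n ε) := interior_mono (K_sub_U t) h1
  exact hz.2 h3

lemma inside (hn : 3 ≤ n) (hε : |ε| < Real.cos (al n)) (z : ℂ) (hz : z ∈ U n ε)
    (r : ℝ) (hr0 : 0 ≤ r) (hr : r < 1) : (r : ℂ) * z ∈ interior (U n ε) := by
  unfold U at hz
  rw [Set.mem_iUnion] at hz
  obtain ⟨t, ht⟩ := hz
  have h1 := (K_convex (n := n) (ε := ε) t).combo_interior_closure_mem_interior
    (zero_mem_interior_K hn hε t) (subset_closure ht) (a := 1 - r) (b := r)
    (by linarith) hr0 (by ring)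
  rw [smul_zero, zero_add, Complex.real_smul] at h1
  exact interior_mono (K_sub_U t) h1

end

end Pool.Agent.W_MP_ded0ac_co
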