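import Mathlib
import Pool.Agent.W_MP_ded0ac_co.Geom

/-!
Area and length computations for the normalised shifted `(n+1, n)`-setup.
-/

set_option autoImplicit false

namespace Pool.Agent.W_MP_ded0ac_co

open Complex MeasureTheory
open scoped ENNReal

/-! ### volume of a triangle -/

lemma isClosed_segment' (a b : ℂ) : IsClosed (segment ℝ a b) := by
  rw [← convexHull_pair]
  exact ((Set.toFinite ({a, b} : Set ℂ)).isCompact_convexHull ℝ).isClosed

/-- triangle with vertices `0, a, b` -/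
def Tri (a b : ℂ) : Set ℂ := {z | ∃ x y : ℝ, 0 ≤ x ∧ 0 ≤ y ∧ x + y ≤ 1 ∧ z = x * a + y * b}

/-- the linear map sending `1, I` to `a, b` -/
def lmap (a b : ℂ) : ℂ →ₗ[ℝ] ℂ where
  toFun z := z.re * a + z.im * b
  map_add' z v := by
    simp only [Complex.add_re, Complex.add_im, Complex.ofReal_add]; ring
  map_smul' r z := by
    simp only [Complex.real_smul, RingHom.id_apply, Complex.mul_re, Complex.mul_im,
      Complex.ofReal_re, Complex.ofReal_im, zero_mul, sub_zero, add_zero, Complex.ofReal_mul]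
    ring

lemma lmap_det (a b : ℂ) : LinearMap.det (lmap a b) = det a b := by
  rw [← LinearMap.det_toMatrix Complex.basisOneI, Matrix.det_fin_two]
  simp [LinearMap.toMatrix_apply, lmap, det]
  ring

lemma volume_std : volume (Tri 1 I) ≤ ENNReal.ofReal (1 / 2) := by
  have h1 : Tri 1 I = Complex.measurableEquivRealProd ⁻¹'
      {x : ℝ × ℝ | 0 ≤ x.1 ∧ 0 ≤ x.2 ∧ x.1 + x.2 ≤ 1} := by
    ext z
    simp only [Tri, Set.mem_ofPred_eq, Set.mem_preimage, Complex.measurableEquivRealProd_apply]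
    constructor
    · rintro ⟨x, y, hx, hy, hxy, rfl⟩
      simp [hx, hy, hxy]
    · rintro ⟨hx, hy, hxy⟩
      refine ⟨z.re, z.im, hx, hy, hxy, ?_⟩
      rw [mul_one]
      exact (Complex.re_add_im z).symm
  have hmeas : MeasurableSet {x : ℝ × ℝ | 0 ≤ x.1 ∧ 0 ≤ x.2 ∧ x.1 + x.2 ≤ 1} := by
    apply IsClosed.measurableSet
    apply IsClosed.inter (isClosed_le continuous_const continuous_fst)
    apply IsClosed.inter (isClosed_le continuous_const continuous_snd)
    exact isClosed_le (continuous_fst.add continuous_snd) continuous_const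
  rw [h1, Complex.volume_preserving_equiv_real_prod.measure_preimage hmeas.nullMeasurableSet,
    Measure.volume_eq_prod, Measure.prod_apply hmeas]
  have h2 : ∀ x : ℝ, volume (Prod.mk x ⁻¹' {x : ℝ × ℝ | 0 ≤ x.1 ∧ 0 ≤ x.2 ∧ x.1 + x.2 ≤ 1}) ≤
      (Set.Icc (0 : ℝ) 1).indicator (fun x => ENNReal.ofReal (1 - x)) x := by
    intro x
    by_cases hx : x ∈ Set.Icc (0 : ℝ) 1
    · rw [Set.indicator_of_mem hx]
      calc volume (Prod.mk x ⁻¹' {x : ℝ × ℝ | 0 ≤ x.1 ∧ 0 ≤ x.2 ∧ x.1 + x.2 ≤ 1})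
          ≤ volume (Set.Icc (0 : ℝ) (1 - x)) := by
            apply measure_mono
            rintro y ⟨_, hy, hxy⟩
            simp only at hy hxy
            exact ⟨hy, by linarith⟩
        _ = ENNReal.ofReal (1 - x) := by rw [Real.volume_Icc, sub_zero]
    · rw [Set.indicator_of_notMem hx]
      have : Prod.mk x ⁻¹' {x : ℝ × ℝ | 0 ≤ x.1 ∧ 0 ≤ x.2 ∧ x.1 + x.2 ≤ 1} = ∅ := by
        ext y
        simp only [Set.mem_preimage, Set.mem_ofPred_eq, Set.mem_empty_iff_false, iff_false]
        rintro ⟨h3, h4, h5⟩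
        exact hx ⟨h3, by linarith⟩
      rw [this, measure_empty]
  refine (lintegral_mono h2).trans ?_
  rw [lintegral_indicator measurableSet_Icc, ← ofReal_integral_eq_lintegral_ofReal]
  · apply ENNReal.ofReal_le_ofReal
    rw [integral_Icc_eq_integral_Ioc, ← intervalIntegral.integral_of_le (by norm_num)]
    rw [intervalIntegral.integral_sub (by simp) (by simp)]
    simp
    norm_num
  · exact (continuous_const.sub continuous_id).continuousOn.integrableOn_Icc
  · filter_upwards [ae_restrict_mem measurableSet_Icc] with x hx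
    simpa using hx.2

lemma volume_tri (a b : ℂ) (hab : 0 ≤ det a b) : volume (Tri a b) ≤ ENNReal.ofReal (det a b / 2) := by
  have h1 : Tri a b = lmap a b '' Tri 1 I := by
    ext z
    constructor
    · rintro ⟨x, y, hx, hy, hxy, rfl⟩
      refine ⟨x + y * I, ⟨x, y, hx, hy, hxy, by rw [mul_one]⟩, ?_⟩
      simp [lmap]
    · rintro ⟨_, ⟨x, y, hx, hy, hxy, rfl⟩, rfl⟩
      refine ⟨x, y, hx, hy, hxy, ?_⟩
      simp [lmap]
  rw [h1, Measure.addHaar_image_linearMap, lmap_det, abs_of_nonneg hab]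
  calc ENNReal.ofReal (det a b) * volume (Tri 1 I)
      ≤ ENNReal.ofReal (det a b) * ENNReal.ofReal (1 / 2) := by
        gcongr
        exact volume_std
    _ = ENNReal.ofReal (det a b / 2) := by
        rw [← ENNReal.ofReal_mul hab]
        congr 1
        ring

section

variable {n : ℕ} {ε : ℝ}

lemma h_sub (hn : 3 ≤ n) (t : ℤ) : h n ε (t - n) = h n ε t := by
  have := h_period (ε := ε) hn t (-1)
  rw [← this]; congr 1; ring

lemma nu_sub (hn : 3 ≤ n) (t : ℤ) : nu n ε (t - n) = nu n ε t := by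
  have := nu_period (ε := ε) hn t (-1)
  rw [← this]; congr 1; ring

lemma det_pq (hn : 3 ≤ n) (t : ℤ) : det (p n ε t) (q n ε t) = h n ε t * mu n ε t := by
  rw [p_coord hn, q_coord hn, det_coord, mu_eq hn]
  ring

lemma det_qp (hn : 3 ≤ n) (t : ℤ) : det (q n ε t) (p n ε (t + 1)) = h n ε t * nu n ε t := by
  have h1 := q_coord' (ε := ε) hn (t - n)
  have h2 := p_next_coord (ε := ε) hn (t - n)
  rw [show t - (n : ℤ) + n = t by ring] at h1
  rw [show t - (n : ℤ) + (n + 1) = t + 1 by ring] at h2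
  rw [h1, h2, det_coord, ← nu_sub hn t, nu_eq hn, ← h_sub hn t]
  ring

lemma dist_pq (hn : 3 ≤ n) (t : ℤ) (hmu : 0 ≤ mu n ε t) :
    dist (p n ε t) (q n ε t) = mu n ε t := by
  rw [dist_comm, Complex.dist_eq, p_coord hn, q_coord hn, ← mul_sub, norm_mul, e_norm, one_mul]
  have : ((h n ε t : ℂ) + ((-(h n ε t * Real.tan (be n)) : ℝ) : ℂ) * I -
      ((h n ε t : ℂ) + ((-(Real.sin (al n)) - w n ε t : ℝ) : ℂ) * I)) = ((mu n ε t : ℝ) : ℂ) * I := by
    rw [mu_eq hn]
    push_cast
    ring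
  rw [this, norm_mul, Complex.norm_I, mul_one, Complex.norm_real, Real.norm_eq_abs,
    abs_of_nonneg hmu]

lemma dist_qp (hn : 3 ≤ n) (t : ℤ) (hnu : 0 ≤ nu n ε t) :
    dist (q n ε t) (p n ε (t + 1)) = nu n ε t := by
  have h1 := q_coord' (ε := ε) hn (t - n)
  have h2 := p_next_coord (ε := ε) hn (t - n)
  rw [show t - (n : ℤ) + n = t by ring] at h1
  rw [show t - (n : ℤ) + (n + 1) = t + 1 by ring] at h2
  rw [dist_comm, Complex.dist_eq, h1, h2, ← mul_sub, norm_mul, e_norm, one_mul]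
  have : ((h n ε (t - n) : ℂ) + ((Real.sin (al n) - w n ε (t - n) : ℝ) : ℂ) * I -
      ((h n ε (t - n) : ℂ) + ((h n ε (t - n) * Real.tan (be n) : ℝ) : ℂ) * I)) =
      ((nu n ε (t - n) : ℝ) : ℂ) * I := by
    rw [nu_eq hn]
    push_cast
    ring
  rw [this, norm_mul, Complex.norm_I, mul_one, Complex.norm_real, Real.norm_eq_abs, nu_sub hn,
    abs_of_nonneg hnu]

/-- the plane is covered by the cones over the boundary edges -/
lemma cover (hn : 3 ≤ n) (hh : ∀ t, 0 < h n ε t) (hmu : ∀ t, 0 < mu n ε t)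
    (hnu : ∀ t, 0 < nu n ε t) (z : ℂ) :
    ∃ t : ℤ, (∃ a b : ℝ, 0 ≤ a ∧ 0 ≤ b ∧ z = a * p n ε t + b * q n ε t) ∨
      (∃ a b : ℝ, 0 ≤ a ∧ 0 ≤ b ∧ z = a * q n ε t + b * p n ε (t + 1)) := by
  have hde := de_pos hn
  have hde' := de_le hn
  have hcb := cos_be_pos hn
  obtain ⟨t, x, hx0, hx1, hz⟩ := exists_polar (2 * de n) (by linarith) (z * e (de n))
  have hz' : z = ((‖z * e (de n)‖ : ℝ) : ℂ) * e (2 * de n * t + x - de n) := by
    have : z = (z * e (de n)) * e (-(de n)) := by rw [mul_assoc, e_mul_neg, mul_one]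
    rw [this]
    nth_rewrite 1 [hz]
    rw [mul_assoc, ← e_add, mul_assoc z, e_mul_neg, mul_one]
    rw [sub_eq_add_neg]
  set r : ℝ := ‖z * e (de n)‖ with hr
  have hr0 : 0 ≤ r := norm_nonneg _
  by_cases hD : 0 ≤ det (p n ε t) z
  · refine ⟨t, Or.inl ⟨_, _, ?_, ?_, cramer (p n ε t) (q n ε t) z ?_⟩⟩
    · apply div_nonneg
      · have : det z (q n ε t) = r * (h n ε t / Real.cos (be n)) * Real.sin (2 * de n - x) := by
          rw [hz']
          unfold q
          rw [det_polar]
          congr 2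
          ring
        rw [this]
        have h1 : 0 ≤ Real.sin (2 * de n - x) := by
          apply Real.sin_nonneg_of_nonneg_of_le_pi (by linarith)
          linarith [Real.pi_pos]
        have := (hh t).le
        positivity
      · rw [det_pq hn]
        exact (mul_pos (hh t) (hmu t)).le
    · apply div_nonneg hD
      rw [det_pq hn]
      exact (mul_pos (hh t) (hmu t)).le
    · rw [det_pq hn]
      exact (mul_pos (hh t) (hmu t)).ne'
  · have hdet := det_qp (ε := ε) hn (t - 1)
    have hz2 := cramer (q n ε (t - 1)) (p n ε (t - 1 + 1)) z (by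
      rw [hdet]; exact (mul_pos (hh _) (hnu _)).ne')
    refine ⟨t - 1, Or.inr ⟨_, _, ?_, ?_, hz2⟩⟩
    · apply div_nonneg
      · rw [sub_add_cancel]
        push Not at hD
        have : det z (p n ε t) = - det (p n ε t) z := by unfold det; ring
        rw [this]
        linarith
      · rw [hdet]
        exact (mul_pos (hh _) (hnu _)).le
    · apply div_nonneg
      · have : det (q n ε (t - 1)) z = (h n ε (t - 1) / Real.cos (be n)) * r * Real.sin x := by
          rw [hz']
          unfold q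
          rw [det_polar]
          congr 2
          push_cast
          ring
        rw [this]
        have h1 : 0 ≤ Real.sin x := by
          apply Real.sin_nonneg_of_nonneg_of_le_pi (by linarith)
          linarith [Real.pi_pos]
        have := (hh (t - 1)).le
        positivity
      · rw [hdet]
        exact (mul_pos (hh _) (hnu _)).le

/-- every integer is congruent to one in `[0, n(n+1))` -/
lemma exists_mod (hn : 3 ≤ n) (t : ℤ) :
    ∃ (s : ℕ) (m : ℤ), s < n * (n + 1) ∧ t = s + n * (n + 1) * m := by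
  have hN : (0 : ℤ) < n * (n + 1) := by positivity
  have h1 := Int.emod_nonneg t hN.ne'
  have h2 := Int.emod_lt_of_pos t hN
  refine ⟨(t % (n * (n + 1))).toNat, t / (n * (n + 1)), ?_, ?_⟩
  · zify
    rw [Int.toNat_of_nonneg h1]
    exact h2
  · rw [Int.toNat_of_nonneg h1]
    exact (Int.emod_add_mul_ediv t _).symm

/-- the area bound -/
lemma volume_U_le (hn : 3 ≤ n) (hε : |ε| < Real.cos (al n)) (hh : ∀ t, 0 < h n ε t)
    (hmu : ∀ t, 0 < mu n ε t) (hnu : ∀ t, 0 < nu n ε t)
    (hfr : ∀ t : ℤ, segment ℝ (p n ε t) (q n ε t) ∪ segment ℝ (q n ε t) (p n ε (t + 1)) ⊆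
      frontier (U n ε)) :
    volume (U n ε) ≤ ENNReal.ofReal ((n * (n + 1)) *
      (Real.cos (al n) * Real.sin (de n) - ε ^ 2 / 2 * Real.sin (be n)) / Real.cos (be n)) := by
  have hsub : U n ε ⊆ ⋃ t ∈ Finset.range (n * (n + 1)),
      (Tri (p n ε (t : ℤ)) (q n ε (t : ℤ)) ∪ Tri (q n ε (t : ℤ)) (p n ε ((t : ℤ) + 1))) := by
    intro z hz
    have aux : ∀ (a b : ℝ) (P Q : ℂ), 0 ≤ a → 0 ≤ b → z = a * P + b * Q →
        segment ℝ P Q ⊆ frontier (U n ε) → z ∈ Tri P Q := by
      intro a b P Q ha hb hzab hseg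
      refine ⟨a, b, ha, hb, ?_, hzab⟩
      by_contra hcon
      push Not at hcon
      have hpos : 0 < a + b := by linarith
      have hm : ((a / (a + b) : ℝ) : ℂ) * P + ((b / (a + b) : ℝ) : ℂ) * Q ∈ segment ℝ P Q := by
        refine ⟨a / (a + b), b / (a + b), by positivity, by positivity, by field_simp, ?_⟩
        simp only [Complex.real_smul]
      have hout := outside hn hε _ (hseg hm) (a + b) hcon
      apply hout
      have : ((a + b : ℝ) : ℂ) * (((a / (a + b) : ℝ) : ℂ) * P + ((b / (a + b) : ℝ) : ℂ) * Q) =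
          z := by
        rw [hzab]
        have : ((a : ℂ) + b) ≠ 0 := by exact_mod_cast hpos.ne'
        push_cast
        field_simp
      rw [this]
      exact hz
    obtain ⟨t, ht⟩ := cover hn hh hmu hnu z
    obtain ⟨s, m, hs, rfl⟩ := exists_mod hn t
    rw [Set.mem_iUnion₂]
    refine ⟨s, Finset.mem_range.mpr hs, ?_⟩
    have e1 : p n ε ((s : ℤ) + n * (n + 1) * m + 1) = p n ε ((s : ℤ) + 1) := by
      rw [← p_period hn ((s : ℤ) + 1) m]; congr 1; ring
    rw [p_period hn, q_period hn, e1] at ht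
    rcases ht with ⟨a, b, ha, hb, hab⟩ | ⟨a, b, ha, hb, hab⟩
    · exact Or.inl (aux a b _ _ ha hb hab (Set.subset_union_left.trans (hfr s)))
    · exact Or.inr (aux a b _ _ ha hb hab (Set.subset_union_right.trans (hfr s)))
  refine (measure_mono hsub).trans ?_
  refine (measure_biUnion_finset_le _ _).trans ?_
  have h2 : ∀ t ∈ Finset.range (n * (n + 1)),
      volume (Tri (p n ε (t : ℤ)) (q n ε (t : ℤ)) ∪ Tri (q n ε (t : ℤ)) (p n ε ((t : ℤ) + 1))) ≤
        ENNReal.ofReal (h n ε (t : ℤ) * (mu n ε (t : ℤ) + nu n ε (t : ℤ)) / 2) := by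
    intro t _
    refine (measure_union_le _ _).trans ?_
    have b1 := volume_tri (p n ε (t : ℤ)) (q n ε (t : ℤ)) (by
      rw [det_pq hn]; exact (mul_pos (hh _) (hmu _)).le)
    have b2 := volume_tri (q n ε (t : ℤ)) (p n ε ((t : ℤ) + 1)) (by
      rw [det_qp hn]; exact (mul_pos (hh _) (hnu _)).le)
    rw [det_pq hn] at b1
    rw [det_qp hn] at b2
    refine (add_le_add b1 b2).trans (le_of_eq ?_)
    rw [← ENNReal.ofReal_add]
    · congr 1; ring
    · have := mul_pos (hh t) (hmu t); linarith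
    · have := mul_pos (hh t) (hnu t); linarith
  refine (Finset.sum_le_sum h2).trans ?_
  rw [← ENNReal.ofReal_sum_of_nonneg]
  · apply le_of_eq
    congr 1
    rw [← Finset.sum_div, sum_area hn]
    ring
  · intro t _
    have := mul_pos (hh t) (add_pos (hmu t) (hnu t))
    linarith

/-! ### perimeter -/

/-- the two boundary edges on one side -/
def L (n : ℕ) (ε : ℝ) (t : ℤ) : Set ℂ :=
  segment ℝ (p n ε t) (q n ε t) ∪ segment ℝ (q n ε (t + n)) (p n ε (t + n + 1))

lemma seg_coord {x a b c : ℝ} {z : ℂ}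
    (hz : z ∈ segment ℝ (e x * (a + b * I)) (e x * (a + c * I))) :
    ∃ y : ℝ, z = e x * (a + y * I) ∧ (b ≤ c → b ≤ y ∧ y ≤ c) := by
  obtain ⟨s, r, hs, hr, hsr, rfl⟩ := hz
  refine ⟨s * b + r * c, ?_, ?_⟩
  · simp only [Complex.real_smul]
    have : (s : ℂ) + r = 1 := by exact_mod_cast hsr
    push_cast
    linear_combination (e x * a) * this
  · intro hbc
    constructor
    · have : b = s * b + r * b := by rw [← add_mul, hsr, one_mul]
      nlinarith
    · have : c = s * c + r * c := by rw [← add_mul, hsr, one_mul]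
      nlinarith

lemma mem_L (hn : 3 ≤ n) (t : ℤ) (z : ℂ) (hz : z ∈ L n ε t) :
    ∃ y : ℝ, z = e (nrm n t) * (h n ε t + y * I) := by
  rcases hz with hz | hz
  · rw [p_coord hn, q_coord hn] at hz
    obtain ⟨y, hy, _⟩ := seg_coord hz
    exact ⟨y, hy⟩
  · rw [add_assoc t (n : ℤ) 1, p_next_coord hn, q_coord' hn] at hz
    obtain ⟨y, hy, _⟩ := seg_coord hz
    exact ⟨y, hy⟩

lemma L_disj (hn : 3 ≤ n) (hh : ∀ t, 0 < h n ε t) (s t : ℕ) (hs : s < n * (n + 1))
    (ht : t < n * (n + 1)) (hst : s ≠ t) : (L n ε s ∩ L n ε t).Subsingleton := by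
  rintro z ⟨hz1, hz2⟩ v ⟨hv1, hv2⟩
  obtain ⟨y1, hy1⟩ := mem_L hn _ _ hz1
  obtain ⟨y2, hy2⟩ := mem_L hn _ _ hz2
  obtain ⟨x1, hx1⟩ := mem_L hn _ _ hv1
  obtain ⟨x2, hx2⟩ := mem_L hn _ _ hv2
  have key : ∀ a b c d : ℝ, ∀ A B : ℝ, e A * ((a : ℂ) + b * I) = e B * (c + d * I) →
      (a = Real.cos (B - A) * c - Real.sin (B - A) * d) := by
    intro a b c d A B hAB
    have h1 : (a : ℂ) + b * I = e (B - A) * (c + d * I) := by
      have : e (B - A) = e (-A) * e B := by rw [← e_add]; congr 1; ring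
      rw [this, mul_assoc, ← hAB, ← mul_assoc, e_neg_mul, one_mul]
    have h2 := congrArg Complex.re h1
    simp only [Complex.add_re, Complex.mul_re, Complex.ofReal_re, Complex.ofReal_im,
      Complex.I_re, Complex.I_im, Complex.add_im, Complex.mul_im, e_re, e_im] at h2
    linarith
  have k1 := key _ _ _ _ _ _ (hy1.symm.trans hy2)
  have k2 := key _ _ _ _ _ _ (hx1.symm.trans hx2)
  have hdiff : nrm n (t : ℤ) - nrm n (s : ℤ) = 2 * de n * ((t : ℤ) - (s : ℤ) : ℤ) := by
    unfold nrm; push_cast; ring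
  rw [hdiff] at k1 k2
  have hsin : Real.sin (2 * de n * ((t : ℤ) - (s : ℤ) : ℤ)) ≠ 0 := by
    intro h0
    rw [Real.sin_eq_zero_iff] at h0
    obtain ⟨m, hm⟩ := h0
    -- 2 δ (t - s) = m π, so 2 (t - s) = m n (n+1)
    have h1 : 2 * ((t : ℤ) - (s : ℤ)) = m * (n * (n + 1)) := by
      have h2 : (m : ℝ) * (n * ((n : ℝ) + 1)) * de n = 2 * de n * ((t : ℤ) - (s : ℤ) : ℤ) := by
        rw [← hm, ← n_al hn, ← k_de hn]; ring
      have h3 := (de_pos hn).ne'
      have h4 : (m : ℝ) * (n * ((n : ℝ) + 1)) = 2 * ((t : ℤ) - (s : ℤ) : ℤ) := by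
        apply mul_right_cancel₀ h3
        rw [h2]; ring
      have h5 : ((m * (n * (n + 1)) : ℤ) : ℝ) = ((2 * ((t : ℤ) - (s : ℤ)) : ℤ) : ℝ) := by
        push_cast
        push_cast at h4
        exact h4
      exact_mod_cast h5.symm
    have hmabs : m = 1 ∨ m = -1 := by
      have hs' : (s : ℤ) < n * (n + 1) := by exact_mod_cast hs
      have ht' : (t : ℤ) < n * (n + 1) := by exact_mod_cast ht
      have hs0 : (0 : ℤ) ≤ s := Int.natCast_nonneg s
      have ht0 : (0 : ℤ) ≤ t := Int.natCast_nonneg t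
      have hN : (0 : ℤ) < n * (n + 1) := by positivity
      have hm0 : m ≠ 0 := by
        intro h
        rw [h, zero_mul] at h1
        apply hst
        have : (s : ℤ) = t := by omega
        exact_mod_cast this
      have hm1 : m < 2 := by
        by_contra hcon
        push Not at hcon
        nlinarith
      have hm2 : -2 < m := by
        by_contra hcon
        push Not at hcon
        nlinarith
      omega
    have hcos : Real.cos (2 * de n * ((t : ℤ) - (s : ℤ) : ℤ)) = -1 := by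
      rw [← hm]
      rcases hmabs with h | h <;> rw [h] <;> simp
    have hsin0 : Real.sin (2 * de n * ((t : ℤ) - (s : ℤ) : ℤ)) = 0 := by
      rw [← hm, Real.sin_int_mul_pi]
    rw [hcos, hsin0] at k1
    have := hh s
    have := hh t
    linarith
  have hy : y2 = x2 := by
    have : Real.sin (2 * de n * ((t : ℤ) - (s : ℤ) : ℤ)) * (y2 - x2) = 0 := by linarith
    rcases mul_eq_zero.mp this with h | h
    · exact absurd h hsin
    · linarith
  rw [hy2, hx2, hy]

lemma measure_L (hn : 3 ≤ n) (hh : ∀ t, 0 < h n ε t) (hmu : ∀ t, 0 < mu n ε t)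
    (hnu : ∀ t, 0 < nu n ε t) (t : ℤ) :
    μH[1] (L n ε t) = ENNReal.ofReal (mu n ε t + nu n ε t) := by
  unfold L
  have htan : 0 < Real.tan (be n) := by
    rw [Real.tan_eq_sin_div_cos]
    exact div_pos (sin_be_pos hn) (cos_be_pos hn)
  rw [measure_union]
  · rw [hausdorffMeasure_segment, hausdorffMeasure_segment, edist_dist, edist_dist,
      dist_pq hn t (hmu t).le, dist_qp hn (t + n) (hnu _).le]
    have : nu n ε (t + n) = nu n ε t := by
      have := nu_period (ε := ε) hn t 1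
      rwa [mul_one] at this
    rw [this, ← ENNReal.ofReal_add (hmu t).le (hnu t).le]
  · rw [Set.disjoint_left]
    intro z hz1 hz2
    rw [p_coord hn, q_coord hn] at hz1
    rw [add_assoc t (n : ℤ) 1, p_next_coord hn, q_coord' hn] at hz2
    obtain ⟨y1, hy1, hb1⟩ := seg_coord hz1
    obtain ⟨y2, hy2, hb2⟩ := seg_coord hz2
    have h1 := hmu t
    rw [mu_eq hn] at h1
    have h2 := hnu t
    rw [nu_eq hn] at h2
    have c1 := hb1 (by linarith)
    have c2 := hb2 (by linarith)
    have h3 : (h n ε t : ℂ) + y1 * I = h n ε t + y2 * I :=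
      mul_left_cancel₀ (e_ne_zero _) (hy1.symm.trans hy2)
    have h4 := congrArg Complex.im h3
    simp at h4
    have := mul_pos (hh t) htan
    linarith
  · exact (isClosed_segment' _ _).measurableSet

lemma isClosed_L (t : ℤ) : IsClosed (L n ε t) :=
  (isClosed_segment' _ _).union (isClosed_segment' _ _)

/-- the perimeter, if the boundary is the expected polygonal chain -/
lemma perimeter_ge (hn : 3 ≤ n) (hh : ∀ t, 0 < h n ε t) (hmu : ∀ t, 0 < mu n ε t)
    (hnu : ∀ t, 0 < nu n ε t)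
    (hfr : ∀ t : ℤ, segment ℝ (p n ε t) (q n ε t) ∪ segment ℝ (q n ε t) (p n ε (t + 1)) ⊆
      frontier (U n ε)) :
    ENNReal.ofReal (2 * (n * (n + 1)) * Real.sin (de n) / Real.cos (be n)) ≤
      μH[1] (frontier (U n ε)) := by
  have hsub : (⋃ t ∈ Finset.range (n * (n + 1)), L n ε (t : ℤ)) ⊆ frontier (U n ε) := by
    intro z hz
    rw [Set.mem_iUnion₂] at hz
    obtain ⟨t, _, ht⟩ := hz
    rcases ht with ht | ht
    · exact hfr t (Or.inl ht)
    · exact hfr (t + n) (Or.inr ht)
  refine le_trans (le_of_eq ?_) (measure_mono hsub)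
  have hns : NullSingletonClass (μH[1] : Measure ℂ) :=
    Measure.nullSingletonClass_hausdorff ℂ (by norm_num)
  rw [measure_biUnion_finset₀]
  · have h1 : ∑ t ∈ Finset.range (n * (n + 1)), μH[1] (L n ε (t : ℤ)) =
        ∑ t ∈ Finset.range (n * (n + 1)), ENNReal.ofReal (mu n ε (t : ℤ) + nu n ε (t : ℤ)) :=
      Finset.sum_congr rfl (fun t _ => measure_L hn hh hmu hnu (t : ℤ))
    rw [h1, ← ENNReal.ofReal_sum_of_nonneg, sum_len hn]
    intro t _
    exact (add_pos (hmu t) (hnu t)).le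
  · intro s hs t ht hst
    rw [Finset.mem_coe, Finset.mem_range] at hs ht
    exact (L_disj hn hh s t hs ht hst).measure_zero _
  · intro t _
    exact (isClosed_L (t : ℤ)).measurableSet.nullMeasurableSet

lemma perimeter_finite (hn : 3 ≤ n)
    (hfr : frontier (U n ε) ⊆ ⋃ t : ℤ, (segment ℝ (p n ε t) (q n ε t) ∪
      segment ℝ (q n ε t) (p n ε (t + 1)))) :
    μH[1] (frontier (U n ε)) < ⊤ := by
  have hsub : frontier (U n ε) ⊆ ⋃ t ∈ Finset.range (n * (n + 1)),
      (segment ℝ (p n ε (t : ℤ)) (q n ε (t : ℤ)) ∪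
      segment ℝ (q n ε (t : ℤ)) (p n ε ((t : ℤ) + 1))) := by
    intro z hz
    have := hfr hz
    rw [Set.mem_iUnion] at this
    obtain ⟨t, ht⟩ := this
    obtain ⟨s, m, hs, rfl⟩ := exists_mod hn t
    rw [Set.mem_iUnion₂]
    refine ⟨s, Finset.mem_range.mpr hs, ?_⟩
    have e1 : p n ε ((s : ℤ) + n * (n + 1) * m + 1) = p n ε ((s : ℤ) + 1) := by
      rw [← p_period hn ((s : ℤ) + 1) m]; congr 1; ring
    rwa [p_period hn, q_period hn, e1] at ht
  refine lt_of_le_of_lt (measure_mono hsub) ?_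
  refine lt_of_le_of_lt (measure_biUnion_finset_le _ _) ?_
  apply ENNReal.sum_lt_top.mpr
  intro t _
  refine lt_of_le_of_lt (measure_union_le _ _) ?_
  rw [hausdorffMeasure_segment, hausdorffMeasure_segment]
  exact ENNReal.add_lt_top.mpr ⟨edist_lt_top _ _, edist_lt_top _ _⟩

/-- The ratio bound in the normalised situation. -/
lemma ratio_bound (hn : 3 ≤ n) (hε0 : 0 < ε) (hε : |ε| < Real.cos (al n))
    (hh : ∀ t, 0 < h n ε t)
    (hmu : ∀ t, 0 < mu n ε t) (hnu : ∀ t, 0 < nu n ε t)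
    (hfr : frontier (U n ε) = ⋃ t : ℤ, (segment ℝ (p n ε t) (q n ε t) ∪
      segment ℝ (q n ε t) (p n ε (t + 1)))) :
    2 / Real.cos (al n) < (μH[1] (frontier (U n ε))).toReal / (volume (U n ε)).toReal := by
  have hfr' : ∀ t : ℤ, segment ℝ (p n ε t) (q n ε t) ∪ segment ℝ (q n ε t) (p n ε (t + 1)) ⊆
      frontier (U n ε) := by
    intro t
    rw [hfr]
    exact Set.subset_iUnion (fun t : ℤ => segment ℝ (p n ε t) (q n ε t) ∪
      segment ℝ (q n ε t) (p n ε (t + 1))) t
  have hA := volume_U_le hn hε hh hmu hnu hfr'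
  have hP := perimeter_ge hn hh hmu hnu hfr'
  have hPf := perimeter_finite hn hfr.le
  have hAf : volume (U n ε) < ⊤ := (U_compact hn).measure_lt_top
  have hA0 : 0 < volume (U n ε) := by
    have h1 : (0 : ℂ) ∈ interior (U n ε) :=
      interior_mono (K_sub_U 0) (zero_mem_interior_K hn hε 0)
    exact (isOpen_interior.measure_pos volume ⟨0, h1⟩).trans_le (measure_mono interior_subset)
  have hcb := cos_be_pos hn
  have hca := cos_al_pos hn
  have hsd := sin_de_pos hn
  have hsb := sin_be_pos hn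
  have hn0 : (0 : ℝ) < n := by positivity
  have hA0' : 0 < (volume (U n ε)).toReal := ENNReal.toReal_pos hA0.ne' hAf.ne
  have hP' : 2 * (n * (n + 1)) * Real.sin (de n) / Real.cos (be n) ≤
      (μH[1] (frontier (U n ε))).toReal := by
    rw [← ENNReal.ofReal_le_iff_le_toReal hPf.ne]
    exact hP
  have hA' : (volume (U n ε)).toReal ≤ (n * (n + 1)) *
      (Real.cos (al n) * Real.sin (de n) - ε ^ 2 / 2 * Real.sin (be n)) / Real.cos (be n) := by
    have h1 : 0 ≤ (n * (n + 1)) *
      (Real.cos (al n) * Real.sin (de n) - ε ^ 2 / 2 * Real.sin (be n)) / Real.cos (be n) := by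
      by_contra hcon
      push Not at hcon
      rw [ENNReal.ofReal_of_nonpos hcon.le] at hA
      exact absurd hA0 (not_lt.mpr hA)
    exact (ENNReal.toReal_mono ENNReal.ofReal_ne_top hA).trans (le_of_eq (ENNReal.toReal_ofReal h1))
  rw [div_lt_div_iff₀ hca hA0']
  calc 2 * (volume (U n ε)).toReal
      ≤ 2 * ((n * (n + 1)) *
      (Real.cos (al n) * Real.sin (de n) - ε ^ 2 / 2 * Real.sin (be n)) / Real.cos (be n)) := by
        linarith
    _ < (2 * (n * (n + 1)) * Real.sin (de n) / Real.cos (be n)) * Real.cos (al n) := by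
        have : (2 * (n * (n + 1)) * Real.sin (de n) / Real.cos (be n)) * Real.cos (al n) -
          2 * ((n * (n + 1)) *
      (Real.cos (al n) * Real.sin (de n) - ε ^ 2 / 2 * Real.sin (be n)) / Real.cos (be n)) =
          (n * (n + 1)) * ε ^ 2 * Real.sin (be n) / Real.cos (be n) := by ring
        have h2 : 0 < (n * (n + 1)) * ε ^ 2 * Real.sin (be n) / Real.cos (be n) := by positivity
        linarith
    _ ≤ (μH[1] (frontier (U n ε))).toReal * Real.cos (al n) :=
        mul_le_mul_of_nonneg_right hP' hca.le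

end

end Pool.Agent.W_MP_ded0ac_co
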