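import Mathlib
import Pool.Agent.W_MP_ded0ac_co.Meas

/-!
The pattern of the boundary chain: consequences of the pattern, and its validity for small shifts.
-/

set_option autoImplicit false

namespace Pool.Agent.W_MP_ded0ac_co

open Complex MeasureTheory Filter Topology
open scoped ENNReal

section

variable {n : ℕ} {ε : ℝ}

lemma p_sub_coord (hn : 3 ≤ n) (t : ℤ) :
    p n ε (t - n) = e (nrm n (t - n)) * (h n ε t + (-(Real.sin (al n)) - w n ε (t - n) : ℝ) * I) := by
  rw [p_coord hn, h_sub hn]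

lemma p_succ_coord (hn : 3 ≤ n) (t : ℤ) :
    p n ε (t + 1) = e (nrm n (t - n)) * (h n ε t + (Real.sin (al n) - w n ε (t - n) : ℝ) * I) := by
  have h2 := p_next_coord (ε := ε) hn (t - n)
  rw [show t - (n : ℤ) + (n + 1) = t + 1 by ring, h_sub hn] at h2
  exact h2

lemma q_sub_coord (hn : 3 ≤ n) (t : ℤ) :
    q n ε t = e (nrm n (t - n)) * (h n ε t + (h n ε t * Real.tan (be n) : ℝ) * I) := by
  have h1 := q_coord' (ε := ε) hn (t - n)
  rw [show t - (n : ℤ) + n = t by ring, h_sub hn] at h1
  exact h1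

lemma nu_eq' (hn : 3 ≤ n) (t : ℤ) :
    nu n ε t = (Real.sin (al n) - w n ε (t - n)) - h n ε t * Real.tan (be n) := by
  rw [← nu_sub hn, nu_eq hn, h_sub hn]

lemma mu_eq' (hn : 3 ≤ n) (t : ℤ) :
    mu n ε t = -(h n ε t * Real.tan (be n)) - (-(Real.sin (al n)) - w n ε t) := mu_eq hn t

/-- a point of an open segment on a line in rotated coordinates -/
lemma openSeg_coord {x a b c : ℝ} (hbc : b < c) {z : ℂ}
    (hz : z ∈ openSegment ℝ (e x * (a + b * I)) (e x * (a + c * I))) :
    ∃ y : ℝ, z = e x * (a + y * I) ∧ b < y ∧ y < c := by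
  obtain ⟨s, r, hs, hr, hsr, rfl⟩ := hz
  refine ⟨s * b + r * c, ?_, ?_, ?_⟩
  · simp only [Complex.real_smul]
    have : (s : ℂ) + r = 1 := by exact_mod_cast hsr
    push_cast
    linear_combination (e x * a) * this
  · have : b = s * b + r * b := by rw [← add_mul, hsr, one_mul]
    nlinarith
  · have : c = s * c + r * c := by rw [← add_mul, hsr, one_mul]
    nlinarith

lemma mem_openSeg {x a b c y : ℝ} (hby : b < y) (hyc : y < c) :
    e x * ((a : ℂ) + y * I) ∈ openSegment ℝ (e x * ((a : ℂ) + b * I)) (e x * (a + c * I)) := by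
  have hbc : 0 < c - b := by linarith
  refine ⟨(c - y) / (c - b), (y - b) / (c - b), div_pos (by linarith) hbc,
    div_pos (by linarith) hbc, by field_simp; ring, ?_⟩
  simp only [Complex.real_smul]
  have : ((c : ℂ) - b) ≠ 0 := by exact_mod_cast hbc.ne'
  push_cast
  field_simp
  ring

/-- uniqueness of the crossing point and positivity of the lengths -/
lemma cross_unique (hn : 3 ≤ n) (t : ℤ) (Q : ℂ)
    (h1 : Q ∈ openSegment ℝ (p n ε t) (p n ε (t + (n + 1))))
    (h2 : Q ∈ openSegment ℝ (p n ε (t + 1)) (p n ε (t - n))) :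
    Q = q n ε t ∧ 0 < mu n ε t ∧ 0 < nu n ε t := by
  have hsa := sin_al_pos hn
  have hsb := sin_be_pos hn
  have hcb := cos_be_pos hn
  rw [p_coord hn, p_next_coord hn] at h1
  obtain ⟨y, hy, hy1, hy2⟩ := openSeg_coord (by linarith) h1
  rw [openSegment_symm, p_sub_coord hn, p_succ_coord hn] at h2
  obtain ⟨y', hy', hy1', hy2'⟩ := openSeg_coord (by linarith) h2
  have hE : e (2 * be n) * ((h n ε t : ℂ) + y * I) = h n ε t + y' * I := by
    have h3 := hy.symm.trans hy'
    have h4 : e (nrm n t) = e (nrm n (t - n)) * e (2 * be n) := by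
      rw [← e_add]
      congr 1
      unfold nrm
      push_cast
      rw [← n_de hn]; ring
    rw [h4, mul_assoc] at h3
    exact mul_left_cancel₀ (e_ne_zero _) h3
  have hre := congrArg Complex.re hE
  have him := congrArg Complex.im hE
  simp only [Complex.add_re, Complex.mul_re, Complex.ofReal_re, Complex.ofReal_im,
    Complex.I_re, Complex.I_im, Complex.add_im, Complex.mul_im, e_re, e_im] at hre him
  have hyv : y = -(h n ε t * Real.tan (be n)) := by
    rw [Real.tan_eq_sin_div_cos]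
    rw [Real.cos_two_mul, Real.sin_two_mul] at hre
    have hsc := Real.sin_sq_add_cos_sq (be n)
    have : Real.sin (be n) * (y * Real.cos (be n) + h n ε t * Real.sin (be n)) = 0 := by
      linear_combination (-1 / 2) * hre + (h n ε t) * hsc
    rcases mul_eq_zero.mp this with h6 | h6
    · linarith
    · field_simp
      linarith
  have hyv' : y' = h n ε t * Real.tan (be n) := by
    rw [hyv, Real.tan_eq_sin_div_cos, Real.cos_two_mul, Real.sin_two_mul] at him
    rw [Real.tan_eq_sin_div_cos]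
    have hne := hcb.ne'
    have h7 : y' = 2 * Real.sin (be n) * Real.cos (be n) * h n ε t -
        (2 * Real.cos (be n) ^ 2 - 1) * (h n ε t * (Real.sin (be n) / Real.cos (be n))) := by
      linarith
    rw [h7]
    field_simp
    ring
  refine ⟨?_, ?_, ?_⟩
  · rw [hy, hyv, q_coord hn]
  · rw [mu_eq hn, ← hyv]
    linarith
  · rw [nu_eq' hn, ← hyv']
    linarith

/-- the shift is small as soon as all tips survive -/
lemma small_of_mu (hn : 3 ≤ n) (hε0 : 0 < ε) (hmu : ∀ t, 0 < mu n ε t) :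
    |ε| < Real.cos (al n) ∧ ∀ t, 0 < h n ε t := by
  have hcb := cos_be_pos hn
  have hca := cos_al_pos hn
  have hde := de_pos hn
  have hde' := de_le hn
  have hbe := be_le hn
  have hal := al_pos hn
  have hal3 := al_le hn
  have hab := al_eq hn
  have hnde := n_de hn
  have hlt : ε < Real.cos (al n) := by
    obtain ⟨r, t, hr1, hr2, hrt⟩ : ∃ r t : ℤ, -2 ≤ r ∧ r ≤ 1 ∧ 4 * t = 3 * n + r := by
      refine ⟨4 * ((3 * n + 1) / 4) - 3 * n, (3 * n + 1) / 4, ?_, ?_, ?_⟩ <;> omega
    have hang : 2 * al n * t + de n = (al n / 2 * r + de n) - Real.pi / 2 + 2 * Real.pi := by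
      have : (4 : ℝ) * t = 3 * n + r := by exact_mod_cast hrt
      have h2 := n_al hn
      have h3 : 2 * al n * t = al n / 2 * (4 * t) := by ring
      rw [h3, this, ← h2]; ring
    have hmt := hmu t
    unfold mu at hmt
    rw [hang, Real.sin_add_two_pi, Real.sin_sub_pi_div_two] at hmt
    have hmt2 : 0 < Real.sin (de n) + ε * -Real.cos (al n / 2 * r + de n) := by
      by_contra hcon
      push Not at hcon
      exact absurd hmt (not_lt.mpr (div_nonpos_of_nonpos_of_nonneg hcon hcb.le))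
    have h3n : (3 : ℝ) ≤ n := by exact_mod_cast hn
    have h3de : 3 * de n ≤ be n := by
      rw [← hnde]
      exact mul_le_mul_of_nonneg_right h3n hde.le
    have hr1' : (-2 : ℝ) ≤ r := by exact_mod_cast hr1
    have hr2' : (r : ℝ) ≤ 1 := by exact_mod_cast hr2
    have habs : |al n / 2 * r + de n| ≤ be n := by
      rw [abs_le]
      constructor
      · nlinarith
      · nlinarith
    have hcos : Real.cos (be n) ≤ Real.cos (al n / 2 * r + de n) := by
      rw [← Real.cos_abs (al n / 2 * r + de n)]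
      exact Real.cos_le_cos_of_nonneg_of_le_pi (abs_nonneg _) (by linarith [Real.pi_pos]) habs
    have h4 : ε * Real.cos (be n) < Real.cos (al n) * Real.cos (be n) := by
      have := sin_de_lt hn
      nlinarith
    exact lt_of_mul_lt_mul_right h4 hcb.le
  refine ⟨by rwa [abs_of_pos hε0], ?_⟩
  intro t
  unfold h
  have := Real.neg_one_le_cos (2 * al n * t + al n)
  nlinarith

/-! ### the pattern for small shifts -/

/-- scalar product of a tip with an outer normal -/
lemma re_p (hε0 : 0 ≤ ε) (s t : ℤ) :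
    Real.cos (2 * de n * (t - s : ℤ) - al n) - ε ≤ (e (-(nrm n s)) * p n ε t).re := by
  have : (e (-(nrm n s)) * p n ε t).re =
      Real.cos (2 * de n * (t - s : ℤ) - al n) + ε * Real.cos (-(nrm n s) + -(2 * be n * t)) := by
    unfold p
    rw [mul_add, ← e_add, mul_left_comm, ← e_add]
    have a1 : -(nrm n s) + 2 * de n * t = 2 * de n * (t - s : ℤ) - al n := by
      unfold nrm; push_cast; ring
    rw [a1]
    simp only [Complex.add_re, Complex.mul_re, Complex.ofReal_re, Complex.ofReal_im, e_re,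
      zero_mul, sub_zero]
  rw [this]
  have := Real.neg_one_le_cos (-(nrm n s) + -(2 * be n * t))
  nlinarith

lemma re_q (s t : ℤ) :
    (e (-(nrm n s)) * q n ε t).re =
      h n ε t * (Real.cos (2 * de n * (t - s : ℤ) + de n - al n) / Real.cos (be n)) := by
  unfold q
  rw [mul_left_comm, ← e_add]
  have a1 : -(nrm n s) + (2 * de n * t + de n) = 2 * de n * (t - s : ℤ) + de n - al n := by
    unfold nrm; push_cast; ring
  rw [a1]
  simp only [Complex.mul_re, Complex.ofReal_re, Complex.ofReal_im, e_re, zero_mul, sub_zero]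
  ring

lemma h_le (hε0 : 0 ≤ ε) (t : ℤ) : h n ε t ≤ Real.cos (al n) + ε := by
  unfold h
  have := Real.cos_le_one (2 * al n * t + al n)
  nlinarith

lemma h_ge (hε0 : 0 ≤ ε) (t : ℤ) : Real.cos (al n) - ε ≤ h n ε t := by
  unfold h
  have := Real.neg_one_le_cos (2 * al n * t + al n)
  nlinarith

/-- smallness conditions -/
structure Small (n : ℕ) (ε : ℝ) : Prop where
  pos : 0 < ε
  lt : ε < Real.sin (de n)
  c2 : ∀ m : ℕ, 1 ≤ m → m ≤ n → 2 * ε ≤ Real.cos (2 * de n * m - al n) - Real.cos (al n)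
  c3 : ∀ m : ℕ, 2 ≤ m → m ≤ n →
    ε * (1 + Real.cos (2 * de n * m - de n - al n) / Real.cos (be n)) ≤
      Real.cos (al n) * (Real.cos (2 * de n * m - de n - al n) / Real.cos (be n) - 1)

lemma kappa_gt (hn : 3 ≤ n) (m : ℕ) (h2 : 2 ≤ m) (h3 : m ≤ n) :
    1 < Real.cos (2 * de n * m - de n - al n) / Real.cos (be n) := by
  have hcb := cos_be_pos hn
  have hde := de_pos hn
  have hab := al_eq hn
  have hnde := n_de hn
  have hbe := be_le hn
  rw [one_lt_div hcb, ← Real.cos_abs (2 * de n * m - de n - al n)]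
  have hm2 : (2 : ℝ) ≤ m := by exact_mod_cast h2
  have hm3 : (m : ℝ) ≤ n := by exact_mod_cast h3
  apply Real.cos_lt_cos_of_nonneg_of_le_pi (abs_nonneg _) (by linarith [Real.pi_pos])
  rw [abs_lt]
  constructor
  · nlinarith
  · nlinarith

lemma eventually_small (hn : 3 ≤ n) : ∀ᶠ ε in 𝓝[>] (0 : ℝ), Small n ε := by
  have hde := de_pos hn
  have hab := al_eq hn
  have hnde := n_de hn
  have hal := al_le hn
  have hcb := cos_be_pos hn
  have hca := cos_al_pos hn
  have e1 : ∀ᶠ ε in 𝓝[>] (0 : ℝ), 0 < ε := self_mem_nhdsWithin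
  have e2 : ∀ᶠ ε in 𝓝[>] (0 : ℝ), ε < Real.sin (de n) := by
    filter_upwards [Ioo_mem_nhdsGT (sin_de_pos hn)] with ε hε using hε.2
  have e3 : ∀ᶠ ε in 𝓝[>] (0 : ℝ), ∀ m ∈ Finset.Icc 1 n,
      2 * ε ≤ Real.cos (2 * de n * (m : ℕ) - al n) - Real.cos (al n) := by
    rw [Filter.eventually_all_finset]
    intro m hm
    rw [Finset.mem_Icc] at hm
    have hpos : 0 < (Real.cos (2 * de n * (m : ℕ) - al n) - Real.cos (al n)) / 2 := by
      have hm1 : (1 : ℝ) ≤ m := by exact_mod_cast hm.1
      have hm2 : (m : ℝ) ≤ n := by exact_mod_cast hm.2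
      have : Real.cos (al n) < Real.cos (2 * de n * (m : ℕ) - al n) := by
        rw [← Real.cos_abs (2 * de n * (m : ℕ) - al n)]
        apply Real.cos_lt_cos_of_nonneg_of_le_pi (abs_nonneg _) (by linarith [Real.pi_pos])
        rw [abs_lt]
        constructor
        · nlinarith
        · nlinarith
      linarith
    filter_upwards [Ioo_mem_nhdsGT hpos] with ε hε
    linarith [hε.2]
  have e4 : ∀ᶠ ε in 𝓝[>] (0 : ℝ), ∀ m ∈ Finset.Icc 2 n,
      ε * (1 + Real.cos (2 * de n * (m : ℕ) - de n - al n) / Real.cos (be n)) ≤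
      Real.cos (al n) * (Real.cos (2 * de n * (m : ℕ) - de n - al n) / Real.cos (be n) - 1) := by
    rw [Filter.eventually_all_finset]
    intro m hm
    rw [Finset.mem_Icc] at hm
    have hk := kappa_gt hn m hm.1 hm.2
    set κ := Real.cos (2 * de n * (m : ℕ) - de n - al n) / Real.cos (be n) with hκ
    have hpos : 0 < Real.cos (al n) * (κ - 1) / (1 + κ) := by
      apply div_pos
      · exact mul_pos hca (by linarith)
      · linarith
    filter_upwards [Ioo_mem_nhdsGT hpos] with ε hε
    have := hε.2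
    rw [lt_div_iff₀ (by linarith)] at this
    exact this.le
  filter_upwards [e1, e2, e3, e4] with ε h1 h2 h3 h4
  exact ⟨h1, h2, fun m hm1 hm2 => h3 m (Finset.mem_Icc.mpr ⟨hm1, hm2⟩),
    fun m hm1 hm2 => h4 m (Finset.mem_Icc.mpr ⟨hm1, hm2⟩)⟩

lemma Small.mu_pos (hn : 3 ≤ n) (hs : Small n ε) (t : ℤ) : 0 < mu n ε t := by
  unfold mu
  apply div_pos _ (cos_be_pos hn)
  have := Real.neg_one_le_sin (2 * al n * t + de n)
  nlinarith [hs.pos, hs.lt]

lemma Small.nu_pos (hn : 3 ≤ n) (hs : Small n ε) (t : ℤ) : 0 < nu n ε t := by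
  unfold nu
  apply div_pos _ (cos_be_pos hn)
  have := Real.sin_le_one (2 * al n * t + al n + be n)
  nlinarith [hs.pos, hs.lt]

/-- separation: the side number `s` of another polygon has `p t` on its outer side -/
lemma Small.sep_p (hn : 3 ≤ n) (hs : Small n ε) (t : ℤ) (m : ℕ) (h1 : 1 ≤ m) (h2 : m ≤ n) :
    h n ε (t + m - (n + 1)) ≤ (e (-(nrm n (t + m - (n + 1)))) * p n ε t).re ∧
    h n ε (t - m) ≤ (e (-(nrm n (t - m))) * p n ε t).re := by
  have hc := hs.c2 m h1 h2
  have hkde := k_de hn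
  constructor
  · have b1 := re_p (n := n) hs.pos.le (t + m - (n + 1)) t
    have b2 := h_le (n := n) hs.pos.le (t + m - (n + 1))
    have a1 : 2 * de n * ((t - (t + m - (n + 1)) : ℤ) : ℝ) - al n =
        -(2 * de n * m - al n) := by
      push_cast
      rw [← hkde]; ring
    rw [a1, Real.cos_neg] at b1
    linarith
  · have b1 := re_p (n := n) hs.pos.le (t - m) t
    have b2 := h_le (n := n) hs.pos.le (t - m)
    have a1 : 2 * de n * ((t - (t - m) : ℤ) : ℝ) - al n = 2 * de n * m - al n := by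
      push_cast
      ring
    rw [a1] at b1
    linarith

lemma Small.sep_q (hn : 3 ≤ n) (hs : Small n ε) (t : ℤ) (m : ℕ) (h1 : 1 ≤ m) (h2 : m ≤ n) :
    h n ε (t + m - (n + 1)) ≤ (e (-(nrm n (t + m - (n + 1)))) * q n ε t).re ∧
    h n ε (t - m) ≤ (e (-(nrm n (t - m))) * q n ε (t - 1)).re := by
  have hkde := k_de hn
  have hcb := cos_be_pos hn
  have hab := al_eq hn
  have a1 : 2 * de n * ((t - (t + m - (n + 1)) : ℤ) : ℝ) + de n - al n =
      -(2 * de n * m - de n - al n) := by
    push_cast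
    rw [← hkde]; ring
  have a2 : 2 * de n * ((t - 1 - (t - m) : ℤ) : ℝ) + de n - al n =
      2 * de n * m - de n - al n := by
    push_cast
    ring
  rw [re_q, re_q, a1, a2, Real.cos_neg]
  rcases Nat.eq_or_lt_of_le h1 with h3 | h3
  · -- m = 1
    subst h3
    have a3 : Real.cos (2 * de n * ((1 : ℕ) : ℝ) - de n - al n) = Real.cos (be n) := by
      rw [← Real.cos_neg]
      congr 1
      push_cast
      rw [hab]; ring
    rw [a3, div_self hcb.ne', mul_one, mul_one]
    constructor
    · have : t + (1 : ℕ) - (n + 1) = t - n := by push_cast; ring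
      rw [this, h_sub hn]
    · exact le_of_eq (by norm_num)
  · have hc := hs.c3 m h3 h2
    have hk := kappa_gt hn m h3 h2
    set κ := Real.cos (2 * de n * (m : ℕ) - de n - al n) / Real.cos (be n) with hκ
    have hκ0 : 0 ≤ κ := by linarith
    constructor
    · have b2 := h_le (n := n) hs.pos.le (t + m - (n + 1))
      have b3 := mul_le_mul_of_nonneg_right (h_ge (n := n) hs.pos.le t) hκ0
      nlinarith
    · have b2 := h_le (n := n) hs.pos.le (t - m)
      have b3 := mul_le_mul_of_nonneg_right (h_ge (n := n) hs.pos.le (t - 1)) hκ0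
      nlinarith

/-- halfplane `≥` is inherited by segments -/
lemma seg_ge {x a : ℝ} {P Q z : ℂ} (hP : a ≤ (e x * P).re) (hQ : a ≤ (e x * Q).re)
    (hz : z ∈ segment ℝ P Q) : a ≤ (e x * z).re := by
  obtain ⟨s, r, hs, hr, hsr, rfl⟩ := hz
  have : (e x * (s • P + r • Q)).re = s * (e x * P).re + r * (e x * Q).re := by
    simp only [Complex.mul_re, Complex.add_re, Complex.add_im, Complex.real_smul,
      Complex.ofReal_re, Complex.ofReal_im, Complex.mul_im, zero_mul, sub_zero, add_zero]
    ring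
  rw [this]
  have h1 := mul_le_mul_of_nonneg_left hP hs
  have h2 := mul_le_mul_of_nonneg_left hQ hr
  have h3 : s * a + r * a = a := by rw [← add_mul, hsr, one_mul]
  linarith

lemma notMem_of_ge (hn : 3 ≤ n) (hh : ∀ t, 0 < h n ε t) (t j : ℤ) (z : ℂ) (r : ℝ) (hr : 1 < r)
    (hz : h n ε (t + (n + 1) * j) ≤ (e (-(nrm n (t + (n + 1) * j))) * z).re) :
    (r : ℂ) * z ∉ K n ε t := by
  intro hmem
  have h1 := K_halfplane hn t j _ hmem
  have h2 : (e (-(nrm n (t + (n + 1) * j))) * ((r : ℂ) * z)).re =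
      r * (e (-(nrm n (t + (n + 1) * j))) * z).re := by
    rw [mul_left_comm]
    simp only [Complex.mul_re, Complex.ofReal_re, Complex.ofReal_im, zero_mul, sub_zero]
  rw [h2] at h1
  have h3 := hh (t + (n + 1) * j)
  nlinarith

lemma mem_frontier_of (z : ℂ) (hz : z ∈ U n ε)
    (hout : ∀ r : ℝ, 1 < r → (r : ℂ) * z ∉ U n ε) : z ∈ frontier (U n ε) := by
  refine ⟨subset_closure hz, ?_⟩
  intro hint
  have hcont : Tendsto (fun r : ℝ => (r : ℂ) * z) (𝓝[>] 1) (𝓝 z) := by
    have h1 : Continuous (fun r : ℝ => (r : ℂ) * z) := by fun_prop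
    have h2 := (h1.tendsto 1).mono_left (nhdsWithin_le_nhds (s := Set.Ioi (1 : ℝ)))
    simpa using h2
  have h3 : ∀ᶠ r : ℝ in 𝓝[>] 1, (r : ℂ) * z ∈ U n ε :=
    hcont.eventually (mem_interior_iff_mem_nhds.mp hint)
  have h4 : ∀ᶠ r : ℝ in 𝓝[>] (1 : ℝ), 1 < r := self_mem_nhdsWithin
  obtain ⟨r, hr1, hr2⟩ := (h3.and h4).exists
  exact hout r hr2 hr1

lemma exists_res (t s : ℤ) : ∃ (m : ℕ) (c : ℤ), m ≤ n ∧ s = t + m + (n + 1) * c := by
  have hN : (0 : ℤ) < n + 1 := by positivity
  have h1 := Int.emod_nonneg (s - t) hN.ne'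
  have h2 := Int.emod_lt_of_pos (s - t) hN
  refine ⟨((s - t) % (n + 1)).toNat, (s - t) / (n + 1), ?_, ?_⟩
  · zify
    rw [Int.toNat_of_nonneg h1]
    omega
  · rw [Int.toNat_of_nonneg h1]
    have := Int.emod_add_mul_ediv (s - t) (n + 1)
    linarith

lemma q_mem_open (hn : 3 ≤ n) (hh : ∀ t, 0 < h n ε t) (hmu : ∀ t, 0 < mu n ε t)
    (hnu : ∀ t, 0 < nu n ε t) (t : ℤ) :
    q n ε t ∈ openSegment ℝ (p n ε t) (p n ε (t + (n + 1))) ∧
      q n ε t ∈ openSegment ℝ (p n ε (t + 1)) (p n ε (t - n)) := by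
  have htan : 0 < Real.tan (be n) := by
    rw [Real.tan_eq_sin_div_cos]
    exact div_pos (sin_be_pos hn) (cos_be_pos hn)
  have hht := mul_pos (hh t) htan
  constructor
  · rw [q_coord hn, p_coord hn, p_next_coord hn]
    apply mem_openSeg
    · have := hmu t
      rw [mu_eq hn] at this
      linarith
    · have := hnu t
      rw [nu_eq hn] at this
      linarith
  · rw [openSegment_symm, q_sub_coord hn, p_succ_coord hn, p_sub_coord hn]
    apply mem_openSeg
    · have := hmu (t - n)
      rw [mu_eq hn, h_sub hn] at this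
      linarith
    · have := hnu t
      rw [nu_eq' hn] at this
      linarith

lemma seg_sub_K (hn : 3 ≤ n) (hh : ∀ t, 0 < h n ε t) (hmu : ∀ t, 0 < mu n ε t)
    (hnu : ∀ t, 0 < nu n ε t) (t : ℤ) :
    segment ℝ (p n ε t) (q n ε t) ⊆ K n ε t ∧
      segment ℝ (q n ε t) (p n ε (t + 1)) ⊆ K n ε (t + 1) := by
  obtain ⟨h1, h2⟩ := q_mem_open hn hh hmu hnu t
  have k1 : q n ε t ∈ K n ε t :=
    (K_convex t).segment_subset (p_mem_K t) (p_next_mem_K t) (openSegment_subset_segment _ _ _ h1)
  have k2 : p n ε (t - n) ∈ K n ε (t + 1) := by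
    have := p_mem_K (n := n) (ε := ε) (t - n)
    rw [← K_period (t - n) 1] at this
    rw [show t - (n : ℤ) + (n + 1) * 1 = t + 1 by ring] at this
    exact this
  have k3 : q n ε t ∈ K n ε (t + 1) :=
    (K_convex (t + 1)).segment_subset (p_mem_K (t + 1)) k2 (openSegment_subset_segment _ _ _ h2)
  exact ⟨(K_convex t).segment_subset (p_mem_K t) k1,
    (K_convex (t + 1)).segment_subset k3 (p_mem_K (t + 1))⟩

lemma small_frontier (hn : 3 ≤ n) (hs : Small n ε) :
    (∀ t, 0 < h n ε t) ∧ (∀ t, 0 < mu n ε t) ∧ (∀ t, 0 < nu n ε t) ∧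
    frontier (U n ε) = ⋃ t : ℤ, (segment ℝ (p n ε t) (q n ε t) ∪
      segment ℝ (q n ε t) (p n ε (t + 1))) := by
  have hmu := hs.mu_pos hn
  have hnu := hs.nu_pos hn
  obtain ⟨hε, hh⟩ := small_of_mu hn hs.pos hmu
  refine ⟨hh, hmu, hnu, ?_⟩
  have hsub1 : ∀ t : ℤ, segment ℝ (p n ε t) (q n ε t) ⊆ frontier (U n ε) := by
    intro t z hz
    apply mem_frontier_of z (K_sub_U t ((seg_sub_K hn hh hmu hnu t).1 hz))
    intro r hr hmem
    unfold U at hmem
    rw [Set.mem_iUnion] at hmem
    obtain ⟨s, hs'⟩ := hmem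
    obtain ⟨m, c, hm, rfl⟩ := exists_res (n := n) t s
    rw [K_period] at hs'
    rcases Nat.eq_zero_or_pos m with h0 | h0
    · subst h0
      rw [Nat.cast_zero, add_zero] at hs'
      refine notMem_of_ge hn hh t 0 z r hr ?_ hs'
      rw [mul_zero, add_zero]
      apply seg_ge _ _ hz
      · rw [p_coord hn, ← mul_assoc, e_neg_mul, one_mul]
        simp
      · rw [q_coord hn, ← mul_assoc, e_neg_mul, one_mul]
        simp
    · refine notMem_of_ge hn hh (t + m) (-1) z r hr ?_ hs'
      have e1 : t + (m : ℤ) + (n + 1) * (-1) = t + m - (n + 1) := by ring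
      rw [e1]
      exact seg_ge (hs.sep_p hn t m h0 hm).1 (hs.sep_q hn t m h0 hm).1 hz
  have hsub2 : ∀ t : ℤ, segment ℝ (q n ε t) (p n ε (t + 1)) ⊆ frontier (U n ε) := by
    intro t z hz
    apply mem_frontier_of z (K_sub_U (t + 1) ((seg_sub_K hn hh hmu hnu t).2 hz))
    intro r hr hmem
    unfold U at hmem
    rw [Set.mem_iUnion] at hmem
    obtain ⟨s, hs'⟩ := hmem
    obtain ⟨m', c, hm', hsc⟩ := exists_res (n := n) (t + 1 - n) s
    -- s = t + 1 - m + (n+1) c with m = n - m'
    obtain ⟨m, hmm⟩ : ∃ m : ℕ, m + m' = n := ⟨n - m', by omega⟩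
    have hmle : m ≤ n := by omega
    have e2 : s = (t + 1 - m) + (n + 1) * c := by
      rw [hsc]
      have : (m : ℤ) + m' = n := by exact_mod_cast hmm
      linarith
    rw [e2, K_period] at hs'
    rcases Nat.eq_zero_or_pos m with h0 | h0
    · subst h0
      rw [Nat.cast_zero, sub_zero] at hs'
      refine notMem_of_ge hn hh (t + 1) (-1) z r hr ?_ hs'
      have e1 : t + 1 + ((n : ℤ) + 1) * (-1) = t - n := by ring
      rw [e1, h_sub hn]
      apply seg_ge _ _ hz
      · rw [q_sub_coord hn, ← mul_assoc, e_neg_mul, one_mul]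
        simp
      · rw [p_succ_coord hn, ← mul_assoc, e_neg_mul, one_mul]
        simp
    · refine notMem_of_ge hn hh (t + 1 - m) 0 z r hr ?_ hs'
      rw [mul_zero, add_zero]
      have k1 := (hs.sep_p hn (t + 1) m h0 hmle).2
      have k2 := (hs.sep_q hn (t + 1) m h0 hmle).2
      rw [add_sub_cancel_right] at k2
      exact seg_ge k2 k1 hz
  apply Set.Subset.antisymm
  · intro z hz
    have hzU : z ∈ U n ε := (U_compact hn).isClosed.frontier_subset hz
    have aux : ∀ (a b : ℝ) (P Q : ℂ), 0 ≤ a → 0 ≤ b → z = a * P + b * Q →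
        segment ℝ P Q ⊆ frontier (U n ε) → z ∈ segment ℝ P Q := by
      intro a b P Q ha hb hzab hseg
      rcases lt_trichotomy (a + b) 1 with hlt | heq | hgt
      · exfalso
        rcases eq_or_lt_of_le (add_nonneg ha hb) with h0 | h0
        · have ha' : a = 0 := by linarith
          have hb' : b = 0 := by linarith
          rw [ha', hb'] at hzab
          simp only [Complex.ofReal_zero, zero_mul, add_zero] at hzab
          rw [hzab] at hz
          exact hz.2 (interior_mono (K_sub_U 0) (zero_mem_interior_K hn hε 0))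
        · have hm : ((a / (a + b) : ℝ) : ℂ) * P + ((b / (a + b) : ℝ) : ℂ) * Q ∈
              segment ℝ P Q := by
            refine ⟨a / (a + b), b / (a + b), by positivity, by positivity, by field_simp, ?_⟩
            simp only [Complex.real_smul]
          have hin := inside hn hε _ ((U_compact hn).isClosed.frontier_subset (hseg hm))
            (a + b) h0.le hlt
          have e1 : ((a + b : ℝ) : ℂ) * (((a / (a + b) : ℝ) : ℂ) * P +
              ((b / (a + b) : ℝ) : ℂ) * Q) = z := by
            rw [hzab]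
            have : ((a : ℂ) + b) ≠ 0 := by exact_mod_cast h0.ne'
            push_cast
            field_simp
          rw [e1] at hin
          exact hz.2 hin
      · exact ⟨a, b, ha, hb, heq, by rw [hzab]; simp only [Complex.real_smul]⟩
      · exfalso
        have hpos : 0 < a + b := by linarith
        have hm : ((a / (a + b) : ℝ) : ℂ) * P + ((b / (a + b) : ℝ) : ℂ) * Q ∈
            segment ℝ P Q := by
          refine ⟨a / (a + b), b / (a + b), by positivity, by positivity, by field_simp, ?_⟩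
          simp only [Complex.real_smul]
        have hout := outside hn hε _ (hseg hm) (a + b) hgt
        apply hout
        have e1 : ((a + b : ℝ) : ℂ) * (((a / (a + b) : ℝ) : ℂ) * P +
            ((b / (a + b) : ℝ) : ℂ) * Q) = z := by
          rw [hzab]
          have : ((a : ℂ) + b) ≠ 0 := by exact_mod_cast hpos.ne'
          push_cast
          field_simp
        rw [e1]
        exact hzU
    obtain ⟨t, ht⟩ := cover hn hh hmu hnu z
    rw [Set.mem_iUnion]
    refine ⟨t, ?_⟩
    rcases ht with ⟨a, b, ha, hb, hab⟩ | ⟨a, b, ha, hb, hab⟩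
    · exact Or.inl (aux a b _ _ ha hb hab (hsub1 t))
    · exact Or.inr (aux a b _ _ ha hb hab (hsub2 t))
  · intro z hz
    rw [Set.mem_iUnion] at hz
    obtain ⟨t, ht⟩ := hz
    rcases ht with ht | ht
    · exact hsub1 t ht
    · exact hsub2 t ht

end

end Pool.Agent.W_MP_ded0ac_co
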