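import Mathlib
import Pool.Agent.W_MP_ded0ac_co.Defs
import Pool.Agent.W_MP_ded0ac_co.Pattern

/-!
Transfer of the normalised results to a general shifted `(n+1, n)`-setup with unit sides.
-/

set_option autoImplicit false

namespace Pool.Agent.W_MP_ded0ac_co

open Complex MeasureTheory Filter Topology
open scoped ENNReal Pointwise

section

variable {n : ℕ} {ε : ℝ}

lemma vert_eq (hn : 3 ≤ n) (A : ℂ) (i j : ℤ) :
    vert n A ε i j = A * p n ε (n * i + (n + 1) * j) := by
  have hn0 : (n : ℂ) ≠ 0 := by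
    have : n ≠ 0 := by omega
    exact_mod_cast this
  have hk0 : (n : ℂ) + 1 ≠ 0 := by exact_mod_cast (by omega : n + 1 ≠ 0)
  have e1 : exp (2 * Real.pi * I * i / (n + 1)) = e (2 * be n * i) := by
    unfold e be
    congr 1
    push_cast
    field_simp
  have e2 : exp (2 * Real.pi * I * j / n) = e (2 * al n * j) := by
    unfold e al
    congr 1
    push_cast
    field_simp
  unfold vert p
  rw [e1, e2]
  have e3 : e (2 * de n * ((n * i + (n + 1) * j : ℤ) : ℝ)) = e (2 * be n * i) * e (2 * al n * j) := by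
    rw [← e_add]
    congr 1
    push_cast
    rw [← k_de hn, ← n_de hn]; ring
  have e4 : e (-(2 * be n * ((n * i + (n + 1) * j : ℤ) : ℝ))) = e (2 * be n * i) := by
    apply e_eq _ _ (-(i + j))
    have := k_be (n := n)
    push_cast
    rw [← this]; ring
  rw [e3, e4]
  ring

/-- multiplication by `A` as a linear map -/
noncomputable def mulA (A : ℂ) : ℂ →ₗ[ℝ] ℂ := LinearMap.mulLeft ℝ A

lemma poly_eq (hn : 3 ≤ n) (A : ℂ) (i : ℤ) :
    poly n A ε i = (fun z => A * z) '' K n ε (n * i) := by
  unfold poly K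
  have h1 : Set.range (vert n A ε i) =
      (mulA A) '' (Set.range fun j : ℤ => p n ε (n * i + (n + 1) * j)) := by
    rw [← Set.range_comp]
    congr 1
    funext j
    rw [vert_eq hn]
    rfl
  rw [h1, ← LinearMap.image_convexHull]
  rfl

lemma setupUnion_eq (hn : 3 ≤ n) (A : ℂ) :
    setupUnion n A ε = (fun z => A * z) '' U n ε := by
  unfold setupUnion U
  rw [Set.image_iUnion]
  apply Set.Subset.antisymm
  · apply Set.iUnion_subset
    intro i
    rw [poly_eq hn]
    exact Set.subset_iUnion (fun t : ℤ => (fun z => A * z) '' K n ε t) (n * i)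
  · apply Set.iUnion_subset
    intro t
    have h1 : K n ε t = K n ε (n * (-t)) := by
      rw [← K_period (n := n) (ε := ε) (n * (-t)) t]
      congr 1
      ring
    rw [h1, ← poly_eq hn]
    exact Set.subset_iUnion (fun i : ℤ => poly n A ε i) (-t)

lemma frontier_mul (A : ℂ) (hA : A ≠ 0) (S : Set ℂ) :
    frontier ((fun z => A * z) '' S) = (fun z => A * z) '' frontier S :=
  ((Homeomorph.mulLeft₀ A hA).image_frontier S).symm

lemma segment_mul (A x y : ℂ) :
    segment ℝ (A * x) (A * y) = (fun z => A * z) '' segment ℝ x y := by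
  have := image_segment ℝ (mulA A).toAffineMap x y
  exact this.symm

lemma openSegment_mul (A x y : ℂ) :
    openSegment ℝ (A * x) (A * y) = (fun z => A * z) '' openSegment ℝ x y := by
  have := image_openSegment ℝ (mulA A).toAffineMap x y
  exact this.symm

lemma mul_injective (A : ℂ) (hA : A ≠ 0) : Function.Injective (fun z : ℂ => A * z) :=
  mul_right_injective₀ hA

/-- the pattern in normalised form -/
lemma pattern_of (hn : 3 ≤ n) (A : ℂ) (hA : A ≠ 0) (h : SamePattern n A ε) :
    (∀ t, 0 < mu n ε t) ∧ (∀ t, 0 < nu n ε t) ∧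
    frontier (U n ε) = ⋃ t : ℤ, (segment ℝ (p n ε t) (q n ε t) ∪
      segment ℝ (q n ε t) (p n ε (t + 1))) := by
  obtain ⟨Q, hQ, hfr⟩ := h
  have hinj := mul_injective A hA
  have i1 : ∀ i j : ℤ, (n : ℤ) * i + (n + 1) * (j + 1) = (n * i + (n + 1) * j) + (n + 1) := by
    intro i j; ring
  have i2 : ∀ i j : ℤ, (n : ℤ) * (i - 1) + (n + 1) * (j + 1) = (n * i + (n + 1) * j) + 1 := by
    intro i j; ring
  have i3 : ∀ i j : ℤ, (n : ℤ) * (i - 1) + (n + 1) * j = (n * i + (n + 1) * j) - n := by
    intro i j; ring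
  have hq : ∀ i j : ℤ, Q i j = A * q n ε (n * i + (n + 1) * j) ∧
      0 < mu n ε (n * i + (n + 1) * j) ∧ 0 < nu n ε (n * i + (n + 1) * j) := by
    intro i j
    obtain ⟨h1, h2⟩ := hQ i j
    rw [vert_eq hn, vert_eq hn, openSegment_mul, i1] at h1
    rw [vert_eq hn, vert_eq hn, openSegment_mul, i2, i3] at h2
    obtain ⟨Q1, hQ1, hQ1'⟩ := h1
    obtain ⟨Q2, hQ2, hQ2'⟩ := h2
    have h12 : Q1 = Q2 := hinj (hQ1'.trans hQ2'.symm)
    subst h12
    obtain ⟨h3, h4, h5⟩ := cross_unique hn _ Q1 hQ1 hQ2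
    refine ⟨?_, h4, h5⟩
    rw [← hQ1', h3]
  have hidx : ∀ t : ℤ, (n : ℤ) * (-t) + (n + 1) * t = t := by intro t; ring
  refine ⟨?_, ?_, ?_⟩
  · intro t
    have := (hq (-t) t).2.1
    rwa [hidx] at this
  · intro t
    have := (hq (-t) t).2.2
    rwa [hidx] at this
  · rw [setupUnion_eq hn, frontier_mul A hA] at hfr
    apply Set.image_injective.mpr hinj
    rw [hfr, Set.image_iUnion]
    apply Set.Subset.antisymm
    · apply Set.iUnion_subset
      intro i
      apply Set.iUnion_subset
      intro j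
      refine Set.Subset.trans ?_ (Set.subset_iUnion (fun t : ℤ => (fun z => A * z) ''
        (segment ℝ (p n ε t) (q n ε t) ∪ segment ℝ (q n ε t) (p n ε (t + 1))))
        (n * i + (n + 1) * j))
      rw [vert_eq hn, vert_eq hn, (hq i j).1, segment_mul, segment_mul, i2, Set.image_union]
    · apply Set.iUnion_subset
      intro t
      refine Set.Subset.trans ?_ (Set.subset_iUnion₂ (s := fun i j : ℤ =>
        (segment ℝ (vert n A ε i j) (Q i j) ∪ segment ℝ (Q i j) (vert n A ε (i - 1) (j + 1))))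
        (-t) t)
      rw [vert_eq hn, vert_eq hn, (hq (-t) t).1, segment_mul, segment_mul, i2, hidx,
        Set.image_union]

lemma pattern_mk (hn : 3 ≤ n) (A : ℂ) (hA : A ≠ 0) (hs : Small n ε) : SamePattern n A ε := by
  obtain ⟨hh, hmu, hnu, hfr⟩ := small_frontier hn hs
  have i1 : ∀ i j : ℤ, (n : ℤ) * i + (n + 1) * (j + 1) = (n * i + (n + 1) * j) + (n + 1) := by
    intro i j; ring
  have i2 : ∀ i j : ℤ, (n : ℤ) * (i - 1) + (n + 1) * (j + 1) = (n * i + (n + 1) * j) + 1 := by
    intro i j; ring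
  have i3 : ∀ i j : ℤ, (n : ℤ) * (i - 1) + (n + 1) * j = (n * i + (n + 1) * j) - n := by
    intro i j; ring
  have hidx : ∀ t : ℤ, (n : ℤ) * (-t) + (n + 1) * t = t := by intro t; ring
  refine ⟨fun i j => A * q n ε (n * i + (n + 1) * j), ?_, ?_⟩
  · intro i j
    obtain ⟨h1, h2⟩ := q_mem_open hn hh hmu hnu (n * i + (n + 1) * j)
    constructor
    · rw [vert_eq hn, vert_eq hn, openSegment_mul, i1]
      exact ⟨_, h1, rfl⟩
    · rw [vert_eq hn, vert_eq hn, openSegment_mul, i2, i3]
      exact ⟨_, h2, rfl⟩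
  · rw [setupUnion_eq hn, frontier_mul A hA, hfr, Set.image_iUnion]
    apply Set.Subset.antisymm
    · apply Set.iUnion_subset
      intro t
      refine Set.Subset.trans ?_ (Set.subset_iUnion₂ (s := fun i j : ℤ =>
        (segment ℝ (vert n A ε i j) (A * q n ε (n * i + (n + 1) * j)) ∪
          segment ℝ (A * q n ε (n * i + (n + 1) * j)) (vert n A ε (i - 1) (j + 1))))
        (-t) t)
      rw [vert_eq hn, vert_eq hn, segment_mul, segment_mul, i2, hidx, Set.image_union]
    · apply Set.iUnion_subset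
      intro i
      apply Set.iUnion_subset
      intro j
      refine Set.Subset.trans ?_ (Set.subset_iUnion (fun t : ℤ => (fun z => A * z) ''
        (segment ℝ (p n ε t) (q n ε t) ∪ segment ℝ (q n ε t) (p n ε (t + 1))))
        (n * i + (n + 1) * j))
      rw [vert_eq hn, vert_eq hn, segment_mul, segment_mul, i2, Set.image_union]

lemma mulA_det (A : ℂ) : LinearMap.det (mulA A) = ‖A‖ ^ 2 := by
  have h1 : LinearMap.det (mulA A) = Algebra.norm ℝ A := rfl
  rw [h1, Algebra.norm_complex_apply, Complex.normSq_eq_norm_sq]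

lemma volume_mul (A : ℂ) (S : Set ℂ) :
    (volume ((fun z => A * z) '' S)).toReal = ‖A‖ ^ 2 * (volume S).toReal := by
  have h1 : volume ((fun z => A * z) '' S) = ENNReal.ofReal |LinearMap.det (mulA A)| * volume S :=
    Measure.addHaar_image_linearMap volume (mulA A) S
  rw [h1, mulA_det, ENNReal.toReal_mul, abs_of_nonneg (by positivity),
    ENNReal.toReal_ofReal (by positivity)]

lemma length_mul (A : ℂ) (hA : A ≠ 0) (S : Set ℂ) :
    (μH[1] ((fun z => A * z) '' S)).toReal = ‖A‖ * (μH[1] S).toReal := by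
  have h1 : (fun z => A * z) '' S = A • S := rfl
  rw [h1, Measure.hausdorffMeasure_smul₀ (by norm_num) hA, NNReal.rpow_one]
  rw [ENNReal.smul_def, smul_eq_mul, ENNReal.toReal_mul]
  rfl

/-- main theorem -/
theorem main (hn : 3 ≤ n) (A : ℂ) (hA : ‖A * exp (2 * Real.pi * I / n) - A‖ = 1) :
    (∀ᶠ ε : ℝ in 𝓝[>] 0, SamePattern n A ε) ∧
    ∀ ε : ℝ, 0 < ε → SamePattern n A ε →
      4 * Real.tan (Real.pi / n) <
        (μH[1] (frontier (setupUnion n A ε))).toReal / (volume (setupUnion n A ε)).toReal := by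
  have hA0 : A ≠ 0 := by
    rintro rfl
    simp at hA
  have hAn : 0 < ‖A‖ := norm_pos_iff.mpr hA0
  have hside : ‖A‖ * (2 * Real.sin (al n)) = 1 := by
    have e1 : exp (2 * Real.pi * I / n) = e (2 * al n) := by
      unfold e al
      congr 1
      push_cast
      ring
    rw [e1] at hA
    have e2 : A * e (2 * al n) - A = A * (e (al n) * (((2 * Real.sin (al n) : ℝ) : ℂ) * I)) := by
      have e3 : e (2 * al n) - 1 = e (al n) * (((2 * Real.sin (al n) : ℝ) : ℂ) * I) := by
        apply Complex.ext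
        · simp only [Complex.sub_re, Complex.mul_re, Complex.mul_im, Complex.ofReal_re,
            Complex.ofReal_im, Complex.I_re, Complex.I_im, e_re, e_im, Complex.one_re,
            Real.cos_two_mul]
          have := Real.sin_sq_add_cos_sq (al n)
          linear_combination (2 : ℝ) * this
        · simp only [Complex.sub_im, Complex.mul_re, Complex.mul_im, Complex.ofReal_re,
            Complex.ofReal_im, Complex.I_re, Complex.I_im, e_re, e_im, Complex.one_im,
            Real.sin_two_mul]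
          ring
      rw [← e3]; ring
    rw [e2, norm_mul, norm_mul, norm_mul, e_norm, Complex.norm_I, Complex.norm_real,
      Real.norm_eq_abs, abs_of_pos (by linarith [sin_al_pos hn])] at hA
    linarith
  refine ⟨?_, ?_⟩
  · filter_upwards [eventually_small hn] with ε hε
    exact pattern_mk hn A hA0 hε
  · intro ε hε0 hpat
    obtain ⟨hmu, hnu, hfr⟩ := pattern_of hn A hA0 hpat
    obtain ⟨hε, hh⟩ := small_of_mu hn hε0 hmu
    have hr := ratio_bound hn hε0 hε hh hmu hnu hfr
    rw [setupUnion_eq hn, frontier_mul A hA0, volume_mul, length_mul A hA0]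
    have hca := cos_al_pos hn
    have e1 : 4 * Real.tan (Real.pi / n) = (2 / Real.cos (al n)) / ‖A‖ := by
      have : Real.pi / n = al n := rfl
      rw [this, Real.tan_eq_sin_div_cos]
      field_simp
      linarith
    have e2 : ‖A‖ * (μH[1] (frontier (U n ε))).toReal / (‖A‖ ^ 2 * (volume (U n ε)).toReal) =
        ((μH[1] (frontier (U n ε))).toReal / (volume (U n ε)).toReal) / ‖A‖ := by
      rw [pow_two]
      field_simp
    rw [e1, e2]
    exact div_lt_div_of_pos_right hr hAn

end

end Pool.Agent.W_MP_ded0ac_co
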